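import Pool.Agent.Helper67_WKS.Base
import Pool.Agent.Helper13_E.Dens

/-!
# MP_7d2497_an: exponential sums are dense in the weighted space of the half-line
-/

namespace Pool.Agent.WKS

open MeasureTheory Filter Topology Complex
open Pool.Agent.H78E (IsWeight)

noncomputable section

/-- continuous cutoff -/
def cuto (N : ℝ) (t : ℝ) : ℝ := max 0 (min 1 (N + 1 - t))

theorem cuto_cont (N : ℝ) : Continuous (cuto N) := by
  unfold cuto
  fun_prop

theorem cuto_one {N t : ℝ} (h : t ≤ N) : cuto N t = 1 := by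
  unfold cuto
  rw [min_eq_left (by linarith), max_eq_right zero_le_one]

theorem cuto_zero {N t : ℝ} (h : N + 1 ≤ t) : cuto N t = 0 := by
  unfold cuto
  rw [max_eq_left]
  exact (min_le_right _ _).trans (by linarith)

theorem cuto_nonneg (N t : ℝ) : 0 ≤ cuto N t := le_max_left _ _

theorem cuto_le (N t : ℝ) : cuto N t ≤ 1 := max_le zero_le_one (min_le_left _ _)

theorem exp_factor {N : ℕ} (c : ℕ → ℂ) (t : ℝ) :
    ∑ n ∈ Finset.range N, c n * Complex.exp (-(((n : ℂ) + 1) * (t : ℂ))) =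
      (Real.exp (-t) : ℂ) * ∑ n ∈ Finset.range N, c n * ((Real.exp (-t) : ℝ) : ℂ) ^ n := by
  rw [Finset.mul_sum]
  refine Finset.sum_congr rfl fun n _ => ?_
  have : Complex.exp (-(((n : ℂ) + 1) * (t : ℂ))) =
      ((Real.exp (-t) : ℝ) : ℂ) * ((Real.exp (-t) : ℝ) : ℂ) ^ n := by
    rw [Complex.ofReal_exp, ← Complex.exp_nat_mul, ← Complex.exp_add]
    congr 1
    push_cast
    ring
  rw [this]
  ring

theorem GI.expSum {φ : ℝ → ℝ} (hφ : IsWeight φ) (N : ℕ) (c : ℕ → ℂ) :
    GI φ (fun t : ℝ => ∑ n ∈ Finset.range N, c n * Complex.exp (-(((n : ℂ) + 1) * (t : ℂ)))) := by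
  refine GI.sum hφ.meas (fun t => zero_le_one.trans (hφ.one_le t)) _ fun n => ?_
  refine (GI.exp hφ (a := (n : ℂ) + 1) ?_).const_mul (c n)
  simp only [Complex.add_re, Complex.natCast_re, Complex.one_re]
  positivity

theorem GI.sub {φ : ℝ → ℝ} (hφ : IsWeight φ) {f g : ℝ → ℂ} (hf : GI φ f) (hg : GI φ g) :
    GI φ (fun t => f t - g t) := by
  have h := hf.add hφ.meas (fun t => zero_le_one.trans (hφ.one_le t)) (hg.const_mul (-1))
  refine h.congr (Eventually.of_forall fun t => ?_)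
  simp only
  ring

theorem densW {φ : ℝ → ℝ} (hφ : IsWeight φ) {f : ℝ → ℂ} (hf : GI φ f) {η : ℝ} (hη : 0 < η) :
    ∃ (N : ℕ) (c : ℕ → ℂ), ∫ t in Set.Ioi (0 : ℝ), φ t *
      ‖f t - ∑ n ∈ Finset.range N, c n * Complex.exp (-(((n : ℂ) + 1) * (t : ℂ)))‖ < η := by
  have hφ0 : ∀ t, 0 ≤ φ t := fun t => zero_le_one.trans (hφ.one_le t)
  -- the tail goes to zero
  have hi : IntegrableOn (fun s : ℝ => φ s * ‖f s‖) (Set.Ioi 0) volume := hf.2
  have htail : Tendsto (fun n : ℕ => ∫ t in Set.Ioi (n : ℝ), φ t * ‖f t‖) atTop (𝓝 0) := by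
    have h1 := tendsto_setIntegral_of_antitone (μ := (volume : Measure ℝ))
      (s := fun n : ℕ => Set.Ioi (n : ℝ)) (f := fun t : ℝ => φ t * ‖f t‖)
      (fun n => measurableSet_Ioi) (by
        intro m n hmn
        exact Set.Ioi_subset_Ioi (by exact_mod_cast hmn)) ⟨0, by simpa using hi⟩
    have h2 : (⋂ n : ℕ, Set.Ioi (n : ℝ)) = ∅ := by
      rw [Set.eq_empty_iff_forall_notMem]
      intro x hx
      obtain ⟨n, hn⟩ := exists_nat_gt x
      have h3 := Set.mem_iInter.mp hx n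
      exact absurd (Set.mem_Ioi.mp h3) (not_lt.mpr hn.le)
    rw [h2] at h1
    simpa using h1
  obtain ⟨n0, hn0⟩ := (htail.eventually (gt_mem_nhds (show 0 < η / 4 by positivity))).exists
  set T : ℝ := (n0 : ℝ) with hT
  have hT0 : 0 ≤ T := Nat.cast_nonneg _
  obtain ⟨C, hC, hCb⟩ := local_bound hφ (T + 1)
  -- the truncated function
  set fT : ℝ → ℂ := (Set.Ioc (0 : ℝ) T).indicator f with hfT
  have hfi : IntegrableOn f (Set.Ioi 0) volume := hf.integrable hφ.one_le
  have hfTi : Integrable fT volume :=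
    (hfi.mono_set Set.Ioc_subset_Ioi_self).integrable_indicator measurableSet_Ioc
  obtain ⟨g0, hg0c, hfg0, hg0cont, hg0int⟩ :=
    hfTi.exists_hasCompactSupport_integral_sub_le (show 0 < η / (4 * C) by positivity)
  set g : ℝ → ℂ := fun t => (cuto T t : ℂ) * g0 t with hg
  have hgcont : Continuous g := (Complex.continuous_ofReal.comp (cuto_cont T)).mul hg0cont
  have hgc : HasCompactSupport g := hg0c.mul_left
  set I : ℝ := ∫ t in Set.Ioi (0 : ℝ), φ t * ‖Complex.exp (-((1 : ℂ) * (t : ℂ)))‖ with hI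
  have hI0 : 0 ≤ I := integral_nonneg fun t => mul_nonneg (hφ0 t) (norm_nonneg _)
  obtain ⟨N, c, hP⟩ := Pool.Agent.H78E.H13.exists_poly
    (Pool.Agent.H78E.H13.continuousOn_comp_log hgcont hgc)
    (show 0 < η / (4 * (I + 1)) by positivity)
  refine ⟨N, c, ?_⟩
  set P : ℝ → ℂ := fun t : ℝ => ∑ n ∈ Finset.range N,
    c n * Complex.exp (-(((n : ℂ) + 1) * (t : ℂ))) with hPdef
  have hpt : ∀ t : ℝ, 0 < t → ‖g t - P t‖ ≤
      ‖Complex.exp (-((1 : ℂ) * (t : ℂ)))‖ * (η / (4 * (I + 1))) := by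
    intro t ht
    have h1 : Real.exp (-t) ≤ 1 := by
      rw [← Real.exp_zero]
      exact Real.exp_le_exp.2 (by linarith)
    have h2 := hP (Real.exp (-t)) (Real.exp_pos _).le h1
    have h3 : ((Real.exp (-t) : ℝ) : ℂ) ≠ 0 := by exact_mod_cast (Real.exp_pos _).ne'
    rw [abs_of_pos (Real.exp_pos _), Real.log_exp, neg_neg] at h2
    have h4 : g t - P t =
        ((Real.exp (-t) : ℝ) : ℂ) * (g t / ((Real.exp (-t) : ℝ) : ℂ) -
          ∑ n ∈ Finset.range N, c n * ((Real.exp (-t) : ℝ) : ℂ) ^ n) := by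
      rw [hPdef]
      simp only
      rw [exp_factor, mul_sub, mul_div_cancel₀ _ h3]
    have h5 : ‖Complex.exp (-((1 : ℂ) * (t : ℂ)))‖ = Real.exp (-t) := by
      rw [Complex.norm_exp]
      simp
    rw [h4, norm_mul, Complex.norm_real, Real.norm_eq_abs, abs_of_pos (Real.exp_pos _), h5]
    exact mul_le_mul_of_nonneg_left h2 (Real.exp_pos _).le
  -- integrability
  have hPG : GI φ P := GI.expSum hφ N c
  have i1 : IntegrableOn (fun t => φ t * ‖f t - P t‖) (Set.Ioi 0) volume := (hf.sub hφ hPG).2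
  have i2 : IntegrableOn ((Set.Ioi T).indicator fun t => φ t * ‖f t‖) (Set.Ioi 0) volume :=
    hi.indicator measurableSet_Ioi
  have i3 : IntegrableOn (fun t => C * ‖fT t - g0 t‖) (Set.Ioi 0) volume :=
    ((hfTi.sub hg0int).norm.const_mul C).integrableOn
  have hE : IntegrableOn (fun t : ℝ => φ t * ‖Complex.exp (-((1 : ℂ) * (t : ℂ)))‖)
      (Set.Ioi 0) volume := (GI.exp hφ (a := 1) (by simp)).2
  have i4 : IntegrableOn (fun t : ℝ => φ t * ‖Complex.exp (-((1 : ℂ) * (t : ℂ)))‖ *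
      (η / (4 * (I + 1)))) (Set.Ioi 0) volume := hE.mul_const _
  have hle : ∫ t in Set.Ioi (0 : ℝ), φ t * ‖f t - P t‖ ≤
      ∫ t in Set.Ioi (0 : ℝ), ((Set.Ioi T).indicator (fun t => φ t * ‖f t‖) t +
        C * ‖fT t - g0 t‖ + φ t * ‖Complex.exp (-((1 : ℂ) * (t : ℂ)))‖ * (η / (4 * (I + 1)))) := by
    refine setIntegral_mono_on i1 ((i2.add i3).add i4) measurableSet_Ioi ?_
    intro t ht
    have ht0 : 0 < t := ht
    have h1 := hpt t ht0
    have h2 : ‖f t - P t‖ ≤ ‖f t - fT t‖ + ‖fT t - g t‖ + ‖g t - P t‖ := by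
      have e : f t - P t = (f t - fT t) + (fT t - g t) + (g t - P t) := by ring
      rw [e]
      exact (norm_add_le _ _).trans (add_le_add_left (norm_add_le _ _) _)
    have h3 : φ t * ‖f t - fT t‖ = (Set.Ioi T).indicator (fun t => φ t * ‖f t‖) t := by
      by_cases h : t ≤ T
      · rw [hfT, Set.indicator_of_mem (show t ∈ Set.Ioc (0 : ℝ) T from ⟨ht0, h⟩),
          Set.indicator_of_notMem (show t ∉ Set.Ioi T from not_lt.mpr h), sub_self, norm_zero,
          mul_zero]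
      · rw [hfT, Set.indicator_of_notMem (show t ∉ Set.Ioc (0 : ℝ) T from fun h' => h h'.2),
          Set.indicator_of_mem (show t ∈ Set.Ioi T from not_le.mp h), sub_zero]
    have h4 : φ t * ‖fT t - g t‖ ≤ C * ‖fT t - g0 t‖ := by
      by_cases h : t ≤ T
      · have e : g t = g0 t := by rw [hg]; simp only; rw [cuto_one h]; simp
        rw [e]
        refine mul_le_mul_of_nonneg_right (hCb t ?_) (norm_nonneg _)
        rw [abs_of_pos ht0]
        linarith
      · have e : fT t = 0 := by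
          rw [hfT, Set.indicator_of_notMem (show t ∉ Set.Ioc (0 : ℝ) T from fun h' => h h'.2)]
        rw [e, zero_sub, zero_sub, norm_neg, norm_neg]
        by_cases h' : T + 1 ≤ t
        · have e2 : g t = 0 := by rw [hg]; simp only; rw [cuto_zero h']; simp
          rw [e2, norm_zero, mul_zero]
          positivity
        · refine mul_le_mul (hCb t ?_) ?_ (norm_nonneg _) hC.le
          · rw [abs_of_pos ht0]
            linarith
          · rw [hg]
            simp only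
            rw [norm_mul, Complex.norm_real, Real.norm_of_nonneg (cuto_nonneg T t)]
            exact mul_le_of_le_one_left (norm_nonneg _) (cuto_le T t)
    have h5 : φ t * ‖g t - P t‖ ≤ φ t * ‖Complex.exp (-((1 : ℂ) * (t : ℂ)))‖ *
        (η / (4 * (I + 1))) := by
      rw [mul_assoc]
      exact mul_le_mul_of_nonneg_left h1 (hφ0 t)
    calc φ t * ‖f t - P t‖ ≤ φ t * (‖f t - fT t‖ + ‖fT t - g t‖ + ‖g t - P t‖) :=
          mul_le_mul_of_nonneg_left h2 (hφ0 t)
      _ = φ t * ‖f t - fT t‖ + φ t * ‖fT t - g t‖ + φ t * ‖g t - P t‖ := by ring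
      _ ≤ _ := by
          rw [h3]
          exact add_le_add (add_le_add_right h4 _) h5
  have hsum : ∫ t in Set.Ioi (0 : ℝ), ((Set.Ioi T).indicator (fun t => φ t * ‖f t‖) t +
        C * ‖fT t - g0 t‖ + φ t * ‖Complex.exp (-((1 : ℂ) * (t : ℂ)))‖ * (η / (4 * (I + 1)))) =
      (∫ t in Set.Ioi (0 : ℝ), (Set.Ioi T).indicator (fun t => φ t * ‖f t‖) t) +
        (∫ t in Set.Ioi (0 : ℝ), C * ‖fT t - g0 t‖) +
        ∫ t in Set.Ioi (0 : ℝ), φ t * ‖Complex.exp (-((1 : ℂ) * (t : ℂ)))‖ *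
          (η / (4 * (I + 1))) := by
    have e1 := integral_add (i2.add i3) i4
    have e2 := integral_add i2 i3
    simp only [Pi.add_apply] at e1
    rw [e1, e2]
  have j1 : ∫ t in Set.Ioi (0 : ℝ), (Set.Ioi T).indicator (fun t => φ t * ‖f t‖) t < η / 4 := by
    refine lt_of_eq_of_lt ?_ hn0
    rw [integral_indicator measurableSet_Ioi, Measure.restrict_restrict measurableSet_Ioi]
    congr 2
    rw [Set.inter_eq_left]
    exact Set.Ioi_subset_Ioi hT0
  have j2 : ∫ t in Set.Ioi (0 : ℝ), C * ‖fT t - g0 t‖ ≤ η / 4 := by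
    rw [integral_const_mul]
    have h1 : ∫ t in Set.Ioi (0 : ℝ), ‖fT t - g0 t‖ ≤ η / (4 * C) :=
      (setIntegral_le_integral (hfTi.sub hg0int).norm
        (Eventually.of_forall fun _ => norm_nonneg _)).trans hfg0
    calc C * ∫ t in Set.Ioi (0 : ℝ), ‖fT t - g0 t‖ ≤ C * (η / (4 * C)) :=
          mul_le_mul_of_nonneg_left h1 hC.le
      _ = η / 4 := by field_simp
  have j3 : ∫ t in Set.Ioi (0 : ℝ), φ t * ‖Complex.exp (-((1 : ℂ) * (t : ℂ)))‖ *
      (η / (4 * (I + 1))) ≤ η / 4 := by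
    rw [integral_mul_const, ← hI]
    calc I * (η / (4 * (I + 1))) = (I / (I + 1)) * (η / 4) := by
          field_simp
      _ ≤ 1 * (η / 4) := by
          gcongr
          exact (div_le_one (by linarith)).mpr (by linarith)
      _ = η / 4 := one_mul _
  refine lt_of_le_of_lt hle ?_
  rw [hsum]
  linarith

end

end Pool.Agent.WKS
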