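import Pool.Agent.Helper67_WKS.Quot
import Pool.Agent.Helper67_WKS.Dens
import Pool.Agent.Helper85_E.Alg
import Pool.Agent.Helper92_E.Riesz
import Pool.Agent.Helper78_E.Ulim

/-!
# MP_7d2497_an: the resolvent on the quotient of the weighted space, Riesz idempotents
-/

namespace Pool.Agent.WKS

open MeasureTheory Filter Topology Complex
open Pool.Agent.H78E (IsWeight LInf LInfPos L1 X Y Rep tr tr_coe YT YT_coe YS mem_Y expPos chi
  chi_rep chi_norm ez rr rr_coe ez_coe chi_ez chi_rr chi_eq_Ioi one_add_ne norm_expPos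
  integral_exp_im)

noncomputable section

namespace GSemi

variable {φ : ℝ → ℝ} {E : Type} [NormedAddCommGroup E] [NormedSpace ℂ E] [CompleteSpace E]
  (S : GSemi φ E)

/-- `D z = 1 - (1 + iz) R`. -/
def D (z : ℂ) : E →L[ℂ] E := 1 - (1 + Complex.I * z) • S.En 1

theorem D_apply (z : ℂ) (x : E) : S.D z x = x - (1 + Complex.I * z) • S.En 1 x := rfl

theorem resid_mul (hφ : IsWeight φ) {a b : ℂ} (ha : 0 < a.re) (hb : 0 < b.re) :
    S.En a - S.En b = (b - a) • (S.En a * S.En b) := by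
  ext x
  exact S.resid hφ ha hb x

theorem D_isUnit_pos (hφ : IsWeight φ) {z : ℂ} (hz : 0 < z.im) :
    S.D z * (1 + (1 + Complex.I * z) • S.En (-Complex.I * z)) = 1 ∧
      (1 + (1 + Complex.I * z) • S.En (-Complex.I * z)) * S.D z = 1 := by
  have hb : 0 < (-Complex.I * z).re := by simpa using hz
  have h1 : 0 < (1 : ℂ).re := by simp
  have e1 := S.resid_mul hφ h1 hb
  have e2 := S.resid_mul hφ hb h1
  unfold D
  set w : ℂ := 1 + Complex.I * z with hw
  have hb1 : (-Complex.I * z) - 1 = -w := by rw [hw]; ring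
  have hb2 : 1 - (-Complex.I * z) = w := by rw [hw]; ring
  rw [hb1] at e1
  rw [hb2] at e2
  have f1 : w • (S.En 1 * S.En (-Complex.I * z)) = S.En (-Complex.I * z) - S.En 1 := by
    rw [neg_smul] at e1
    rw [← neg_inj, ← e1]
    abel
  have f2 : w • (S.En (-Complex.I * z) * S.En 1) = S.En (-Complex.I * z) - S.En 1 := e2.symm
  constructor
  · rw [sub_mul, one_mul, mul_add, mul_one, smul_mul_smul_comm, mul_smul, f1, smul_sub]
    abel
  · rw [add_mul, one_mul, mul_sub, mul_one, smul_mul_smul_comm, mul_smul, f2, smul_sub]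
    abel

theorem D_unit_pos (hφ : IsWeight φ) {z : ℂ} (hz : 0 < z.im) : IsUnit (S.D z) :=
  ⟨⟨S.D z, _, (S.D_isUnit_pos hφ hz).1, (S.D_isUnit_pos hφ hz).2⟩, rfl⟩

/-- Invertibility off the hull of the annihilator. -/
theorem D_unit_of_pi (hφ : IsWeight φ) {f : ℝ → ℂ}
    (hf : GI φ f) (h0 : S.pi f = 0) {z : ℂ} (hz : z.im ≤ 0)
    (hne : ∫ t in Set.Ioi (0 : ℝ), f t * Complex.exp (-(Complex.I * (t : ℂ) * z)) ≠ 0) :
    IsUnit (S.D z) := by
  have hφ0 : ∀ t, 0 ≤ φ t := fun t => zero_le_one.trans (hφ.one_le t)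
  set F : ℂ := ∫ t in Set.Ioi (0 : ℝ), f t * Complex.exp (-(Complex.I * (t : ℂ) * z)) with hF
  have hη : 0 < ‖F‖ / 2 := by
    have : 0 < ‖F‖ := norm_pos_iff.mpr hne
    linarith
  obtain ⟨N, c, hc⟩ := densW hφ hf hη
  have hre : ∀ n : ℕ, 0 < ((n : ℂ) + 1).re := by
    intro n
    simp only [Complex.add_re, Complex.natCast_re, Complex.one_re]
    positivity
  have hg : ∀ n : ℕ, GI φ (fun t : ℝ => Complex.exp (-(((n : ℂ) + 1) * (t : ℂ)))) :=
    fun n => GI.exp hφ (hre n)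
  have hp : GI φ (fun t : ℝ => ∑ n ∈ Finset.range N, c n *
      Complex.exp (-(((n : ℂ) + 1) * (t : ℂ)))) := GI.expSum hφ N c
  have hfi := hf.integrable hφ.one_le
  have hpi := hp.integrable hφ.one_le
  -- the operator side
  have h1 : S.pi (fun t : ℝ => ∑ n ∈ Finset.range N, c n *
      Complex.exp (-(((n : ℂ) + 1) * (t : ℂ)))) = ∑ n ∈ Finset.range N, c n • S.En ((n : ℂ) + 1) :=
    S.pi_sum hφ _ c _ hg
  have h2 : ‖∑ n ∈ Finset.range N, c n • S.En ((n : ℂ) + 1)‖ < ‖F‖ / 2 := by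
    have e : S.pi (fun t : ℝ => f t + (-1 : ℂ) * ∑ n ∈ Finset.range N, c n *
        Complex.exp (-(((n : ℂ) + 1) * (t : ℂ)))) =
        -∑ n ∈ Finset.range N, c n • S.En ((n : ℂ) + 1) := by
      rw [S.pi_add hφ.meas hφ0 hf (hp.const_mul _), S.pi_smul _ hp, h0, h1, zero_add,
        neg_one_smul]
    rw [← norm_neg, ← e]
    refine lt_of_le_of_lt (S.pi_norm hφ0 (hf.add hφ.meas hφ0 (hp.const_mul _))) ?_
    refine lt_of_eq_of_lt ?_ hc
    congr 1
    ext1 t
    congr 2
    ring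
  -- the scalar side
  have hexp : ∀ t : ℝ, 0 < t → ‖Complex.exp (-(Complex.I * (t : ℂ) * z))‖ ≤ 1 := by
    intro t ht
    have := norm_expPos hz t
    unfold expPos at this
    rwa [if_pos ht.le] at this
  have hm : AEStronglyMeasurable (fun t : ℝ => Complex.exp (-(Complex.I * (t : ℂ) * z)))
      (volume.restrict (Set.Ioi 0)) := by
    apply Continuous.aestronglyMeasurable
    fun_prop
  have hb : ∀ᵐ t : ℝ ∂(volume.restrict (Set.Ioi (0 : ℝ))),
      ‖Complex.exp (-(Complex.I * (t : ℂ) * z))‖ ≤ 1 := by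
    filter_upwards [ae_restrict_mem measurableSet_Ioi] with t ht
    exact hexp t ht
  have h3 : ∫ t in Set.Ioi (0 : ℝ), (∑ n ∈ Finset.range N, c n *
      Complex.exp (-(((n : ℂ) + 1) * (t : ℂ)))) * Complex.exp (-(Complex.I * (t : ℂ) * z)) =
      ∑ n ∈ Finset.range N, c n / ((n : ℂ) + 1 + Complex.I * z) := by
    have e : ∀ t : ℝ, (∑ n ∈ Finset.range N, c n *
        Complex.exp (-(((n : ℂ) + 1) * (t : ℂ)))) * Complex.exp (-(Complex.I * (t : ℂ) * z)) =
        ∑ n ∈ Finset.range N, c n * Complex.exp (-(((n : ℂ) + 1 + Complex.I * z) * (t : ℂ))) := by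
      intro t
      rw [Finset.sum_mul]
      apply Finset.sum_congr rfl
      intro n _
      rw [mul_assoc, ← Complex.exp_add]
      congr 2
      ring
    simp_rw [e]
    have hre2 : ∀ n : ℕ, 0 < ((n : ℂ) + 1 + Complex.I * z).re := by
      intro n
      simp only [Complex.add_re, Complex.natCast_re, Complex.one_re, Complex.mul_re,
        Complex.I_re, Complex.I_im, zero_mul, one_mul, zero_sub]
      have : (0 : ℝ) ≤ (n : ℝ) := Nat.cast_nonneg n
      linarith
    have e5 := integral_finsetSum (μ := (volume : Measure ℝ).restrict (Set.Ioi 0))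
      (Finset.range N)
      (f := fun (n : ℕ) (t : ℝ) => c n * Complex.exp (-(((n : ℂ) + 1 + Complex.I * z) * (t : ℂ))))
      (fun n _ => (Pool.Agent.H78E.integrable_exp (hre2 n)).const_mul _)
    rw [e5]
    apply Finset.sum_congr rfl
    intro n _
    rw [integral_const_mul, integral_exp_im (hre2 n)]
    ring
  have h4 : ‖F - ∑ n ∈ Finset.range N, c n / ((n : ℂ) + 1 + Complex.I * z)‖ < ‖F‖ / 2 := by
    rw [← h3, hF, ← integral_sub (hfi.mul_bdd (c := 1) hm hb) (hpi.mul_bdd (c := 1) hm hb)]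
    refine lt_of_le_of_lt (norm_integral_le_of_norm_le (hf.sub hφ hp).2 ?_) hc
    filter_upwards [hb] with t ht
    rw [← sub_mul, norm_mul]
    calc _ ≤ ‖f t - ∑ n ∈ Finset.range N, c n * Complex.exp (-(((n : ℂ) + 1) * (t : ℂ)))‖ * 1 :=
          mul_le_mul_of_nonneg_left ht (norm_nonneg _)
      _ = 1 * ‖f t - ∑ n ∈ Finset.range N, c n * Complex.exp (-(((n : ℂ) + 1) * (t : ℂ)))‖ := by
          ring
      _ ≤ _ := mul_le_mul_of_nonneg_right (hφ.one_le t) (norm_nonneg _)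
  have h5 : ‖F‖ / 2 < ‖∑ n ∈ Finset.range N, c n / ((n : ℂ) + 1 + Complex.I * z)‖ := by
    have := norm_sub_norm_le F (∑ n ∈ Finset.range N, c n / ((n : ℂ) + 1 + Complex.I * z))
    linarith
  have h6 := Pool.Agent.H78E.H85.alg (E →L[ℂ] E) (fun n => S.En ((n : ℂ) + 1)) (Complex.I * z) N c
    (by
      intro n h
      have h' := congrArg Complex.re h
      simp only [Complex.add_re, Complex.natCast_re, Complex.one_re, Complex.mul_re,
        Complex.I_re, Complex.I_im, zero_mul, one_mul, zero_sub, Complex.zero_re] at h'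
      have : (0 : ℝ) ≤ (n : ℝ) := Nat.cast_nonneg n
      linarith)
    (by
      intro m n
      rw [S.resid_mul hφ (hre m) (hre n)]
      congr 1
      ring)
    (h2.trans h5)
  have e0 : ((0 : ℕ) : ℂ) + 1 = 1 := by simp
  simp only [e0] at h6
  exact h6

end GSemi

namespace ISub

variable {φ : ℝ → ℝ} (J : ISub φ)

/-- The hull of a closed invariant subspace. -/
def hull : Set ℂ := {z | z.im ≤ 0 ∧ ∀ f ∈ J.I, chiW φ z f = 0}

theorem D_unit (hφ : IsWeight φ) {z : ℂ} (hz : z ∉ J.hull) : IsUnit ((J.S hφ).D z) := by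
  by_cases h : 0 < z.im
  · exact (J.S hφ).D_unit_pos hφ h
  · push Not at h
    have : ∃ f ∈ J.I, chiW φ z f ≠ 0 := by
      by_contra hcon
      push Not at hcon
      exact hz ⟨h, hcon⟩
    obtain ⟨f, hf, hne⟩ := this
    refine (J.S hφ).D_unit_of_pi hφ (GI_dv hφ f) (J.pi_eq_zero hφ hf) h ?_
    rwa [← chiW_eq_Ioi h f]

/-- The character of the quotient at a point of the hull. -/
def ch {z : ℂ} (hz : z ∈ J.hull) : J.Q →L[ℂ] ℂ := J.lift (chiW φ z) (fun f hf => hz.2 f hf)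

theorem ch_qm {z : ℂ} (hz : z ∈ J.hull) (f : Y) : J.ch hz (J.qm f) = chiW φ z f := rfl

theorem qm_En (hφ : IsWeight φ) (f : Y) :
    (J.S hφ).En 1 (J.qm f) = J.qm ((WS hφ).En 1 f) := (J.qm_pi hφ _ f).symm

end ISub

theorem chiW_En_one {φ : ℝ → ℝ} (hφ : IsWeight φ) {z : ℂ} (hz : z.im ≤ 0) (v : Y) :
    chiW φ z ((WS hφ).En 1 v) = 1 / (1 + Complex.I * z) * chiW φ z v := by
  unfold GSemi.En
  rw [chiW_pi hφ hz _ (GI.exp hφ (by simp))]
  congr 1
  rw [← integral_exp_im (a := 1 + Complex.I * z) (by simp; linarith)]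
  apply setIntegral_congr_fun measurableSet_Ioi
  intro t _
  simp only
  rw [← Complex.exp_add]
  congr 1
  ring

/-- The class of `exp(-t)` on the half-line in the weighted space. -/
theorem exists_rw (φ : ℝ → ℝ) : ∃ r : Y, IsWeight φ → dv φ r = rr := by
  by_cases hφ : IsWeight φ
  · have h0 : ∀ᵐ t : ℝ, t < 0 → expPos (-Complex.I) t = 0 := by
      refine Eventually.of_forall fun t ht => ?_
      unfold expPos
      rw [if_neg (not_le.mpr ht)]
    have h1 : L1 φ (expPos (-Complex.I)) := by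
      refine ⟨(Pool.Agent.H78E.expPos_measurable _).aestronglyMeasurable, ?_⟩
      have h2 := (GI.exp hφ (a := 1) (by simp)).2
      have h3 := h2.integrable_indicator measurableSet_Ioi
      refine h3.congr ?_
      have hne : ∀ᵐ t : ℝ, t ≠ 0 := by
        have : volume ({0} : Set ℝ) = 0 := by simp
        exact compl_mem_ae_iff.mpr this
      filter_upwards [hne] with t ht
      unfold expPos
      by_cases h : 0 < t
      · rw [Set.indicator_of_mem (show t ∈ Set.Ioi (0 : ℝ) from h), if_pos h.le]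
        congr 3
        have := Complex.I_mul_I
        linear_combination (-(t : ℂ)) * this
      · rw [Set.indicator_of_notMem (show t ∉ Set.Ioi (0 : ℝ) from h), if_neg, norm_zero, mul_zero]
        intro h'
        exact h (lt_of_le_of_ne h' (Ne.symm ht))
    obtain ⟨F, hF⟩ := toYW hφ h1 h0
    refine ⟨F, fun _ => ?_⟩
    apply Subtype.ext
    apply Lp.ext
    filter_upwards [hF, rr_coe] with t h2 h3
    rw [h2, h3]
  · exact ⟨0, fun h => absurd h hφ⟩

/-- The class of `exp(-t)`. -/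
def rw' (φ : ℝ → ℝ) : Y := (exists_rw φ).choose

theorem dv_rw {φ : ℝ → ℝ} (hφ : IsWeight φ) : dv φ (rw' φ) = rr := (exists_rw φ).choose_spec hφ

theorem chiW_rw {φ : ℝ → ℝ} (hφ : IsWeight φ) {w : ℂ} (hw : w.im ≤ 0) :
    chiW φ w (rw' φ) = 1 / (1 + Complex.I * w) := by
  rw [chiW_apply, dv_rw hφ, chi_rr hw]

theorem chiW_rw_ne {φ : ℝ → ℝ} (hφ : IsWeight φ) {w : ℂ} (hw : w.im ≤ 0) :
    chiW φ w (rw' φ) ≠ 0 := by
  rw [chiW_rw hφ hw]
  exact one_div_ne_zero (one_add_ne hw)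

namespace ISub

variable {φ : ℝ → ℝ} (J : ISub φ)

theorem ch_En (hφ : IsWeight φ) {z : ℂ} (hz : z ∈ J.hull) (x : J.Q) :
    J.ch hz ((J.S hφ).En 1 x) = 1 / (1 + Complex.I * z) * J.ch hz x := by
  obtain ⟨f, rfl⟩ := J.qm_surj x
  rw [qm_En, ch_qm, ch_qm, chiW_En_one hφ hz.1]

theorem T_commute_En (hφ : IsWeight φ) {s : ℝ} (hs : 0 ≤ s) :
    Commute ((J.S hφ).En 1) ((J.S hφ).T s) := by
  have h : ∀ x, (J.S hφ).T s ((J.S hφ).En 1 x) = (J.S hφ).En 1 ((J.S hφ).T s x) := by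
    intro x
    unfold GSemi.En
    apply (J.S hφ).pi_commute (J.S hφ) ((J.S hφ).T s)
    intro t ht y
    rw [← (J.S hφ).add s t hs ht, ← (J.S hφ).add t s ht hs, add_comm]
  ext x
  exact (h x).symm

/-- `l - R` in terms of `D z`. -/
theorem sub_eq_D (hφ : IsWeight φ) {l : ℂ} (hl : l ≠ 0) :
    algebraMap ℂ (J.Q →L[ℂ] J.Q) l - (J.S hφ).En 1 =
      l • (J.S hφ).D ((1 / l - 1) / Complex.I) := by
  unfold GSemi.D
  have h1 : 1 + Complex.I * ((1 / l - 1) / Complex.I) = 1 / l := by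
    have := Complex.I_ne_zero
    field_simp
    ring
  rw [h1, smul_sub, smul_smul, mul_one_div_cancel hl, one_smul, Algebra.algebraMap_eq_smul_one]

/-- The Riesz idempotent at an isolated real point of the hull. -/
theorem exists_idempotent (hφ : IsWeight φ) {x0 : ℝ} {δ : ℝ} (hδ : 0 < δ)
    (hreal : ∀ z ∈ J.hull, z.im = 0)
    (hiso : ∀ x : ℝ, (x : ℂ) ∈ J.hull → |x - x0| < δ → x = x0) :
    ∃ (ρ : ℝ) (e : J.Q →L[ℂ] J.Q), 0 < ρ ∧
      (∀ l : ℂ, l ≠ 1 / (1 + Complex.I * x0) → ‖l - 1 / (1 + Complex.I * x0)‖ ≤ ρ →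
        IsUnit (algebraMap ℂ (J.Q →L[ℂ] J.Q) l - (J.S hφ).En 1)) ∧
      e * e = e ∧ (∀ s : ℝ, 0 ≤ s → ∀ x, e ((J.S hφ).T s x) = (J.S hφ).T s (e x)) ∧
      (∀ θ : (J.Q →L[ℂ] J.Q) →L[ℂ] ℂ, θ e = (2 * (Real.pi : ℂ) * Complex.I)⁻¹ *
        ∮ l in C(1 / (1 + Complex.I * x0), ρ),
          θ (Ring.inverse (algebraMap ℂ (J.Q →L[ℂ] J.Q) l - (J.S hφ).En 1))) := by
  set l0 : ℂ := 1 / (1 + Complex.I * x0) with hl0
  have hne1 : 1 + Complex.I * (x0 : ℂ) ≠ 0 := one_add_ne (by simp)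
  have hl0ne : l0 ≠ 0 := one_div_ne_zero hne1
  -- the map l ↦ z(l) is continuous at l0
  have hcont : ContinuousAt (fun l : ℂ => (1 / l - 1) / Complex.I) l0 := by
    apply ContinuousAt.div_const
    apply ContinuousAt.sub _ continuousAt_const
    exact continuousAt_const.div continuousAt_id hl0ne
  have hz0 : (1 / l0 - 1) / Complex.I = (x0 : ℂ) := by
    rw [hl0, one_div_one_div]
    have := Complex.I_ne_zero
    field_simp
    ring
  have h1 : ∀ᶠ l in 𝓝 l0, ‖(1 / l - 1) / Complex.I - (x0 : ℂ)‖ < δ ∧ l ≠ 0 := by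
    have h2 : ∀ᶠ l in 𝓝 l0, (fun l : ℂ => (1 / l - 1) / Complex.I) l ∈ Metric.ball (x0 : ℂ) δ := by
      apply hcont.eventually_mem
      simp only [hz0]
      exact Metric.ball_mem_nhds _ hδ
    filter_upwards [h2, isOpen_ne.mem_nhds hl0ne] with l h3 h4
    rw [Metric.mem_ball, dist_eq_norm] at h3
    exact ⟨h3, h4⟩
  obtain ⟨ρ', hρ', hball⟩ := Metric.eventually_nhds_iff.mp h1
  have hunit : ∀ l : ℂ, l ≠ l0 → ‖l - l0‖ ≤ ρ' / 2 →
      IsUnit (algebraMap ℂ (J.Q →L[ℂ] J.Q) l - (J.S hφ).En 1) := by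
    intro l hl hl2
    obtain ⟨h3, h4⟩ := hball (y := l) (by rw [dist_eq_norm]; linarith)
    rw [J.sub_eq_D hφ h4]
    have h5 : IsUnit ((J.S hφ).D ((1 / l - 1) / Complex.I)) := by
      apply J.D_unit hφ
      intro h6
      have h7 := hreal _ h6
      set z := (1 / l - 1) / Complex.I with hz
      have h8 : z = ((z.re : ℝ) : ℂ) := by
        apply Complex.ext <;> simp [h7]
      have h9 : |z.re - x0| < δ := by
        have h10 : z - (x0 : ℂ) = ((z.re - x0 : ℝ) : ℂ) := by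
          rw [h8]
          push_cast
          simp
        rw [h10, Complex.norm_real, Real.norm_eq_abs] at h3
        exact h3
      have h11 := hiso z.re (by rw [← h8]; exact h6) h9
      apply hl
      have h12 : z = (x0 : ℂ) := by rw [h8, h11]
      have h13 : 1 + Complex.I * z = 1 / l := by
        rw [hz]
        have := Complex.I_ne_zero
        field_simp
        ring
      rw [hl0, ← h12, h13, one_div_one_div]
    obtain ⟨u, hu⟩ := h5
    rw [← hu]
    have h6 : IsUnit ((Units.mk0 l h4) • u : (J.Q →L[ℂ] J.Q)ˣ).val := Units.isUnit _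
    exact h6
  obtain ⟨e, he1, he2, he3⟩ := Pool.Agent.H78E.H92.riesz (J.Q →L[ℂ] J.Q) ((J.S hφ).En 1) l0
    (ρ' / 2) (by linarith) hunit
  refine ⟨ρ' / 2, e, by linarith, hunit, he1, ?_, he3⟩
  intro s hs x
  have h2 := he2 _ (J.T_commute_En hφ hs)
  have h3 := congrArg (fun A : J.Q →L[ℂ] J.Q => A x) h2.eq
  exact h3

/-- Action of the idempotent on the characters: general formula. -/
theorem ch_idempotent (hφ : IsWeight φ) {x0 x1 : ℝ} {ρ : ℝ} (hρ : 0 < ρ) {e : J.Q →L[ℂ] J.Q}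
    (hunit : ∀ l : ℂ, l ≠ 1 / (1 + Complex.I * x0) → ‖l - 1 / (1 + Complex.I * x0)‖ ≤ ρ →
        IsUnit (algebraMap ℂ (J.Q →L[ℂ] J.Q) l - (J.S hφ).En 1))
    (he : ∀ θ : (J.Q →L[ℂ] J.Q) →L[ℂ] ℂ, θ e = (2 * (Real.pi : ℂ) * Complex.I)⁻¹ *
        ∮ l in C(1 / (1 + Complex.I * x0), ρ),
          θ (Ring.inverse (algebraMap ℂ (J.Q →L[ℂ] J.Q) l - (J.S hφ).En 1)))
    (h1 : (x1 : ℂ) ∈ J.hull) (x : J.Q) :
    J.ch h1 (e x) = if x1 = x0 then J.ch h1 x else 0 := by
  set l0 : ℂ := 1 / (1 + Complex.I * x0) with hl0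
  set l1 : ℂ := 1 / (1 + Complex.I * x1) with hl1
  have hkey : ∀ l : ℂ, IsUnit (algebraMap ℂ (J.Q →L[ℂ] J.Q) l - (J.S hφ).En 1) → ∀ y : J.Q,
      (l - l1) * J.ch h1 (Ring.inverse (algebraMap ℂ (J.Q →L[ℂ] J.Q) l - (J.S hφ).En 1) y) =
        J.ch h1 y := by
    intro l hl y
    set w := Ring.inverse (algebraMap ℂ (J.Q →L[ℂ] J.Q) l - (J.S hφ).En 1) y with hw
    have h2 := Ring.mul_inverse_cancel _ hl
    have h3 : (algebraMap ℂ (J.Q →L[ℂ] J.Q) l - (J.S hφ).En 1) w = y := by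
      have := congrArg (fun A : J.Q →L[ℂ] J.Q => A y) h2
      exact this
    have h4 : (algebraMap ℂ (J.Q →L[ℂ] J.Q) l - (J.S hφ).En 1) w = l • w - (J.S hφ).En 1 w := by
      rw [Algebra.algebraMap_eq_smul_one]
      rfl
    rw [← h3, h4, map_sub, map_smul, J.ch_En hφ, smul_eq_mul, ← hl1]
    ring
  have hnotunit : ¬ IsUnit (algebraMap ℂ (J.Q →L[ℂ] J.Q) l1 - (J.S hφ).En 1) := by
    intro h
    have h2 := hkey l1 h (J.qm (rw' φ))
    rw [sub_self, zero_mul, J.ch_qm] at h2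
    exact chiW_rw_ne hφ (by simp) h2.symm
  have hform := he ((J.ch h1).comp (ContinuousLinearMap.apply ℂ J.Q x))
  have hform' : J.ch h1 (e x) = (2 * (Real.pi : ℂ) * Complex.I)⁻¹ *
      ∮ l in C(l0, ρ), (l - l1)⁻¹ * J.ch h1 x := by
    have h2 : ((J.ch h1).comp (ContinuousLinearMap.apply ℂ J.Q x)) e = J.ch h1 (e x) := rfl
    rw [← h2, hform]
    congr 1
    apply circleIntegral.integral_congr hρ.le
    intro l hl
    have h3 : ‖l - l0‖ = ρ := by
      rw [mem_sphere_iff_norm] at hl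
      exact hl
    have h4 : l ≠ l0 := by
      intro h
      rw [h, sub_self, norm_zero] at h3
      linarith
    have h5 := hunit l h4 h3.le
    have h6 : l - l1 ≠ 0 := by
      intro h
      rw [sub_eq_zero] at h
      rw [h] at h5
      exact hnotunit h5
    have h7 := hkey l h5 x
    change J.ch h1 (Ring.inverse (algebraMap ℂ (J.Q →L[ℂ] J.Q) l - (J.S hφ).En 1) x) = _
    rw [← h7]
    field_simp
  rw [hform']
  have hmul : ∮ l in C(l0, ρ), (l - l1)⁻¹ * J.ch h1 x =
      (∮ l in C(l0, ρ), (l - l1)⁻¹) * J.ch h1 x := by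
    have := circleIntegral.integral_smul (J.ch h1 x) (fun l : ℂ => (l - l1)⁻¹) l0 ρ
    simp only [smul_eq_mul] at this
    rw [mul_comm, ← this]
    congr 1
    ext1 l
    ring
  rw [hmul]
  split_ifs with hx
  · have h2 : l1 = l0 := by rw [hl1, hl0, hx]
    rw [h2, circleIntegral.integral_sub_center_inv l0 hρ.ne']
    have h3 : (2 * (Real.pi : ℂ) * Complex.I) ≠ 0 := by
      simp [Real.pi_ne_zero, Complex.I_ne_zero]
    field_simp
  · have hl10 : l1 ≠ l0 := by
      intro h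
      apply hx
      rw [hl1, hl0] at h
      have h2 := one_add_ne (z := (x1 : ℂ)) (by simp)
      have h3 := one_add_ne (z := (x0 : ℂ)) (by simp)
      rw [div_eq_div_iff h2 h3, one_mul, one_mul] at h
      have h4 : Complex.I * ((x0 : ℂ) - (x1 : ℂ)) = 0 := by linear_combination h
      have h5 := (mul_eq_zero.mp h4).resolve_left Complex.I_ne_zero
      have h6 : (x0 : ℂ) = (x1 : ℂ) := sub_eq_zero.mp h5
      exact_mod_cast h6.symm
    have hout : ρ < ‖l1 - l0‖ := by
      by_contra h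
      exact hnotunit (hunit l1 hl10 (not_lt.mp h))
    have h2 : ∮ l in C(l0, ρ), (l - l1)⁻¹ = 0 := by
      apply Complex.circleIntegral_eq_zero_of_differentiable_on_off_countable hρ.le
        Set.countable_empty
      · intro l hl
        apply ContinuousAt.continuousWithinAt
        apply ContinuousAt.inv₀
        · fun_prop
        · intro h
          rw [sub_eq_zero] at h
          rw [h, Metric.mem_closedBall, dist_eq_norm] at hl
          linarith
      · intro l hl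
        apply DifferentiableAt.inv
        · fun_prop
        · intro h
          rw [sub_eq_zero] at h
          rw [h] at hl
          have h3 := hl.1
          rw [Metric.mem_ball, dist_eq_norm] at h3
          linarith
    rw [h2]
    ring

end ISub

end

end Pool.Agent.WKS
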