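import Pool.Agent.Helper67_WKS.Semi

/-!
# MP_7d2497_an: the weighted half-line space and its translation semigroup

The space `Y` of integrable functions on the half-line is used for every weight: the element `F`
stands for the function `f = F / φ`.
-/

namespace Pool.Agent.WKS

open MeasureTheory Filter Topology Complex
open Pool.Agent.H78E

noncomputable section

theorem mul_integrable {m : ℝ → ℂ} (hm : Measurable m) {C : ℝ} (hC : ∀ t, ‖m t‖ ≤ C) (F : X) :
    Integrable (fun t => m t * (F : ℝ → ℂ) t) volume := by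
  have h := (L1.integrable_coeFn F).mul_bdd (c := C) hm.aestronglyMeasurable
    (Eventually.of_forall hC)
  refine h.congr (Eventually.of_forall fun t => ?_)
  simp only
  ring

/-- Multiplication by a bounded measurable function. -/
theorem exists_mul (m : ℝ → ℂ) (hm : Measurable m) (C : ℝ) (hC : ∀ t, ‖m t‖ ≤ C) :
    ∃ M : X →L[ℂ] X, (∀ F : X, (M F : ℝ → ℂ) =ᵐ[volume] fun t => m t * (F : ℝ → ℂ) t) ∧
      ∀ F : X, ‖M F‖ ≤ C * ‖F‖ := by
  have hC0 : 0 ≤ C := (norm_nonneg _).trans (hC 0)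
  let L : X →ₗ[ℂ] X :=
    { toFun := fun F => (memLp_one_iff_integrable.mpr (mul_integrable hm hC F)).toLp _
      map_add' := by
        intro F G
        apply Lp.ext
        filter_upwards [(memLp_one_iff_integrable.mpr (mul_integrable hm hC (F + G))).coeFn_toLp,
          (memLp_one_iff_integrable.mpr (mul_integrable hm hC F)).coeFn_toLp,
          (memLp_one_iff_integrable.mpr (mul_integrable hm hC G)).coeFn_toLp,
          Lp.coeFn_add F G, Lp.coeFn_add
            ((memLp_one_iff_integrable.mpr (mul_integrable hm hC F)).toLp _)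
            ((memLp_one_iff_integrable.mpr (mul_integrable hm hC G)).toLp _)] with t h1 h2 h3 h4 h5
        rw [h1, h5, Pi.add_apply, h2, h3, h4, Pi.add_apply]
        ring
      map_smul' := by
        intro c F
        rw [RingHom.id_apply]
        apply Lp.ext
        filter_upwards [(memLp_one_iff_integrable.mpr (mul_integrable hm hC (c • F))).coeFn_toLp,
          (memLp_one_iff_integrable.mpr (mul_integrable hm hC F)).coeFn_toLp,
          Lp.coeFn_smul c F, Lp.coeFn_smul c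
            ((memLp_one_iff_integrable.mpr (mul_integrable hm hC F)).toLp _)] with t h1 h2 h3 h4
        rw [h1, h4, Pi.smul_apply, h2, h3, Pi.smul_apply, smul_eq_mul, smul_eq_mul]
        ring }
  have hae : ∀ F : X, (L F : ℝ → ℂ) =ᵐ[volume] fun t => m t * (F : ℝ → ℂ) t := fun F =>
    (memLp_one_iff_integrable.mpr (mul_integrable hm hC F)).coeFn_toLp
  have hn : ∀ F : X, ‖L F‖ ≤ C * ‖F‖ := by
    intro F
    rw [L1.norm_eq_integral_norm, L1.norm_eq_integral_norm, ← integral_const_mul]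
    refine integral_mono_ae (L1.integrable_coeFn (L F)).norm
      ((L1.integrable_coeFn F).norm.const_mul C) ?_
    filter_upwards [hae F] with t ht
    rw [ht, norm_mul]
    exact mul_le_mul_of_nonneg_right (hC t) (norm_nonneg _)
  exact ⟨L.mkContinuous C hn, hae, hn⟩

section weight

variable {φ : ℝ → ℝ}

theorem one_le_max_zero (hφ : IsWeight φ) (t : ℝ) : 0 < φ t := zero_lt_one.trans_le (hφ.one_le t)

theorem exists_div (φ : ℝ → ℝ) : ∃ D : Y →L[ℂ] Y, IsWeight φ → ∀ F : Y,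
    ((D F : X) : ℝ → ℂ) =ᵐ[volume] (fun t => ((F : X) : ℝ → ℂ) t / (φ t : ℂ)) ∧
      ‖D F‖ ≤ ‖F‖ := by
  by_cases hφ : IsWeight φ
  · obtain ⟨M, h1, h2⟩ := exists_mul (fun t => 1 / (φ t : ℂ))
      (measurable_const.div (Complex.measurable_ofReal.comp hφ.meas)) 1 (by
        intro t
        rw [norm_div, norm_one, Complex.norm_real, Real.norm_of_nonneg (one_le_max_zero hφ t).le]
        exact (div_le_one (one_le_max_zero hφ t)).mpr (hφ.one_le t))
    have hm : ∀ F : Y, M (F : X) ∈ Y := by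
      intro F
      rw [mem_Y]
      have hF : ∀ᵐ t : ℝ, t < 0 → ((F : X) : ℝ → ℂ) t = 0 := F.2
      filter_upwards [h1 (F : X), hF] with t h3 h4 h5
      rw [h3, h4 h5, mul_zero]
    refine ⟨(M.comp Y.subtypeL).codRestrict Y hm, fun _ F => ⟨?_, ?_⟩⟩
    · filter_upwards [h1 (F : X)] with t ht
      have e : (((M.comp Y.subtypeL).codRestrict Y hm F : Y) : X) = M (F : X) := rfl
      rw [e, ht]
      ring
    · have := h2 (F : X)
      rw [one_mul] at this
      exact this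
  · exact ⟨0, fun h => absurd h hφ⟩

/-- Division by the weight. -/
def dv (φ : ℝ → ℝ) : Y →L[ℂ] Y := (exists_div φ).choose

theorem dv_coe (hφ : IsWeight φ) (F : Y) :
    ((dv φ F : X) : ℝ → ℂ) =ᵐ[volume] fun t => ((F : X) : ℝ → ℂ) t / (φ t : ℂ) :=
  ((exists_div φ).choose_spec hφ F).1

theorem dv_norm (hφ : IsWeight φ) (F : Y) : ‖dv φ F‖ ≤ ‖F‖ :=
  ((exists_div φ).choose_spec hφ F).2

theorem coe_eq_mul_dv (hφ : IsWeight φ) (F : Y) :
    ((F : X) : ℝ → ℂ) =ᵐ[volume] fun t => (φ t : ℂ) * ((dv φ F : X) : ℝ → ℂ) t := by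
  filter_upwards [dv_coe hφ F] with t ht
  have h0 : (φ t : ℂ) ≠ 0 := by exact_mod_cast (one_le_max_zero hφ t).ne'
  rw [ht]
  field_simp

theorem dv_injective (hφ : IsWeight φ) {F G : Y} (h : dv φ F = dv φ G) : F = G := by
  apply Subtype.ext
  apply Lp.ext
  filter_upwards [coe_eq_mul_dv hφ F, coe_eq_mul_dv hφ G] with t h1 h2
  rw [h1, h2, h]

theorem ratio_bound (hφ : IsWeight φ) (s t : ℝ) : ‖(φ t : ℂ) / (φ (t - s) : ℂ)‖ ≤ φ s := by
  rw [norm_div, Complex.norm_real, Complex.norm_real,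
    Real.norm_of_nonneg (one_le_max_zero hφ _).le, Real.norm_of_nonneg (one_le_max_zero hφ _).le,
    div_le_iff₀ (one_le_max_zero hφ _)]
  have h := hφ.submul s (t - s)
  rwa [show s + (t - s) = t by ring] at h

/-- The translation by `s ≥ 0` on the weighted space. -/
theorem exists_YW (φ : ℝ → ℝ) (s : ℝ) : ∃ T : Y →L[ℂ] Y, IsWeight φ → 0 ≤ s → ∀ F : Y,
    dv φ (T F) = YT s (dv φ F) ∧ ‖T F‖ ≤ φ s * ‖F‖ := by
  by_cases hφ : IsWeight φ
  · by_cases hs : 0 ≤ s
    · obtain ⟨M, h1, h2⟩ := exists_mul (fun t => (φ t : ℂ) / (φ (t - s) : ℂ))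
        ((Complex.measurable_ofReal.comp hφ.meas).div
          (Complex.measurable_ofReal.comp (hφ.meas.comp (measurable_id.sub_const s)))) (φ s)
        (ratio_bound hφ s)
      have hm : ∀ F : Y, M ((YT s F : Y) : X) ∈ Y := by
        intro F
        rw [mem_Y]
        have hF : ∀ᵐ t : ℝ, t < 0 → (((YT s F : Y) : X) : ℝ → ℂ) t = 0 := (YT s F).2
        filter_upwards [h1 ((YT s F : Y) : X), hF] with t h3 h4 h5
        rw [h3, h4 h5, mul_zero]
      refine ⟨(M.comp (Y.subtypeL.comp (YT s))).codRestrict Y hm, fun _ _ F => ⟨?_, ?_⟩⟩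
      · apply Subtype.ext
        apply Lp.ext
        rw [YT_coe hs]
        set G : Y := (M.comp (Y.subtypeL.comp (YT s))).codRestrict Y hm F with hG
        have e : (G : X) = M ((YT s F : Y) : X) := rfl
        filter_upwards [dv_coe hφ G, h1 ((YT s F : Y) : X), tr_coe s (F : X),
          tr_coe s (dv φ F : X), ae_shift s (dv_coe hφ F)] with t h3 h4 h5 h6 h7
        have h0 : (φ t : ℂ) ≠ 0 := by exact_mod_cast (one_le_max_zero hφ t).ne'
        rw [h3, e, h4, YT_coe hs, h5, h6, h7]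
        field_simp
      · refine (h2 ((YT s F : Y) : X)).trans (le_of_eq ?_)
        rw [YT_coe hs, LinearIsometry.norm_map]
        rfl
    · exact ⟨0, fun _ h => absurd h hs⟩
  · exact ⟨0, fun h => absurd h hφ⟩

/-- The translation semigroup on the weighted space. -/
def YW (φ : ℝ → ℝ) (s : ℝ) : Y →L[ℂ] Y := (exists_YW φ s).choose

theorem dv_YW (hφ : IsWeight φ) {s : ℝ} (hs : 0 ≤ s) (F : Y) :
    dv φ (YW φ s F) = YT s (dv φ F) := ((exists_YW φ s).choose_spec hφ hs F).1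

theorem YW_norm (hφ : IsWeight φ) {s : ℝ} (hs : 0 ≤ s) (F : Y) : ‖YW φ s F‖ ≤ φ s * ‖F‖ :=
  ((exists_YW φ s).choose_spec hφ hs F).2

theorem YW_coe (hφ : IsWeight φ) {s : ℝ} (hs : 0 ≤ s) (F : Y) :
    ((YW φ s F : X) : ℝ → ℂ) =ᵐ[volume]
      fun t => (φ t : ℂ) * ((dv φ F : X) : ℝ → ℂ) (t - s) := by
  have h1 := coe_eq_mul_dv hφ (YW φ s F)
  rw [dv_YW hφ hs] at h1
  filter_upwards [h1, tr_coe s (dv φ F : X)] with t h2 h3
  rw [h2, YT_coe hs, h3]

theorem YW_zero (hφ : IsWeight φ) (F : Y) : YW φ 0 F = F := by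
  apply dv_injective hφ
  rw [dv_YW hφ le_rfl]
  exact YS.zero _

theorem YW_add (hφ : IsWeight φ) {s t : ℝ} (hs : 0 ≤ s) (ht : 0 ≤ t) (F : Y) :
    YW φ (s + t) F = YW φ s (YW φ t F) := by
  apply dv_injective hφ
  rw [dv_YW hφ (add_nonneg hs ht), dv_YW hφ hs, dv_YW hφ ht]
  exact YS.add s t hs ht _

/-- Elements of the weighted space with bounded support, up to a small error. -/
theorem exists_trunc (F : Y) {ε : ℝ} (hε : 0 < ε) : ∃ (N : ℝ) (G : Y), 0 ≤ N ∧
    (∀ᵐ t : ℝ, N < t → ((G : X) : ℝ → ℂ) t = 0) ∧ ‖F - G‖ ≤ ε := by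
  have hi : Integrable (fun t : ℝ => ‖((F : X) : ℝ → ℂ) t‖) volume :=
    (L1.integrable_coeFn (F : X)).norm
  -- the tail goes to zero
  have htail : Tendsto (fun n : ℕ => ∫ t in Set.Ioi (n : ℝ), ‖((F : X) : ℝ → ℂ) t‖) atTop
      (𝓝 0) := by
    have h1 := tendsto_setIntegral_of_antitone (μ := (volume : Measure ℝ))
      (s := fun n : ℕ => Set.Ioi (n : ℝ)) (f := fun t : ℝ => ‖((F : X) : ℝ → ℂ) t‖)
      (fun n => measurableSet_Ioi) (by
        intro m n hmn
        exact Set.Ioi_subset_Ioi (by exact_mod_cast hmn)) ⟨0, hi.integrableOn⟩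
    have h2 : (⋂ n : ℕ, Set.Ioi (n : ℝ)) = ∅ := by
      rw [Set.eq_empty_iff_forall_notMem]
      intro x hx
      obtain ⟨n, hn⟩ := exists_nat_gt x
      have h3 := Set.mem_iInter.mp hx n
      exact absurd (Set.mem_Ioi.mp h3) (not_lt.mpr hn.le)
    rw [h2] at h1
    simpa using h1
  obtain ⟨N, hN⟩ := (htail.eventually (gt_mem_nhds hε)).exists
  obtain ⟨M, h1, h2⟩ := exists_mul ((Set.Iic (N : ℝ)).indicator fun _ => (1 : ℂ))
    (measurable_const.indicator measurableSet_Iic) 1 (by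
      intro t
      by_cases ht : t ∈ Set.Iic (N : ℝ)
      · rw [Set.indicator_of_mem ht, norm_one]
      · rw [Set.indicator_of_notMem ht, norm_zero]
        exact zero_le_one)
  have hm : M (F : X) ∈ Y := by
    rw [mem_Y]
    have hF : ∀ᵐ t : ℝ, t < 0 → ((F : X) : ℝ → ℂ) t = 0 := F.2
    filter_upwards [h1 (F : X), hF] with t h3 h4 h5
    rw [h3, h4 h5, mul_zero]
  refine ⟨N, ⟨M (F : X), hm⟩, Nat.cast_nonneg N, ?_, ?_⟩
  · filter_upwards [h1 (F : X)] with t h3 h4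
    change (M (F : X) : ℝ → ℂ) t = 0
    rw [h3, Set.indicator_of_notMem (fun h => absurd (Set.mem_Iic.mp h) (not_le.mpr h4)), zero_mul]
  · have e1 : ‖F - ⟨M (F : X), hm⟩‖ = ‖(F : X) - M (F : X)‖ := rfl
    rw [e1, L1.norm_eq_integral_norm]
    refine le_trans (le_of_eq ?_) hN.le
    rw [← integral_indicator measurableSet_Ioi]
    apply integral_congr_ae
    filter_upwards [h1 (F : X), Lp.coeFn_sub (F : X) (M (F : X))] with t h3 h4
    rw [h4, Pi.sub_apply, h3]
    by_cases ht : t ≤ N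
    · rw [Set.indicator_of_mem (show t ∈ Set.Iic (N : ℝ) from ht),
        Set.indicator_of_notMem (show t ∉ Set.Ioi (N : ℝ) from not_lt.mpr ht), one_mul, sub_self,
        norm_zero]
    · rw [Set.indicator_of_notMem (show t ∉ Set.Iic (N : ℝ) from ht),
        Set.indicator_of_mem (show t ∈ Set.Ioi (N : ℝ) from not_le.mp ht), zero_mul, sub_zero]

theorem local_bound (hφ : IsWeight φ) (N : ℝ) : ∃ C : ℝ, 0 < C ∧ ∀ t : ℝ, |t| ≤ N → φ t ≤ C := by
  obtain ⟨C, hC, hwb⟩ := Pool.Agent.Helper15_E.weight_bound hφ zero_lt_one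
  refine ⟨|C| * Real.exp N + 1, by positivity, fun t ht => ?_⟩
  have h := hwb t
  rw [one_mul] at h
  calc φ t ≤ C * Real.exp |t| := h
    _ ≤ |C| * Real.exp N := mul_le_mul (le_abs_self C) (Real.exp_le_exp.mpr ht)
        (Real.exp_pos _).le (abs_nonneg C)
    _ ≤ _ := by linarith

theorem YW_continuous_trunc (hφ : IsWeight φ) {G : Y} {N : ℝ}
    (hG : ∀ᵐ t : ℝ, N < t → ((G : X) : ℝ → ℂ) t = 0) {M : ℝ} (hM : 0 ≤ M) :
    ContinuousOn (fun s : ℝ => YW φ s G) (Set.Icc 0 M) := by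
  obtain ⟨C, hC, hCb⟩ := local_bound hφ (max (N + M) 0)
  have hdv : ∀ᵐ t : ℝ, N < t → ((dv φ G : X) : ℝ → ℂ) t = 0 := by
    filter_upwards [dv_coe hφ G, hG] with t h1 h2 h3
    rw [h1, h2 h3, zero_div]
  have hdv0 : ∀ᵐ t : ℝ, t < 0 → ((dv φ G : X) : ℝ → ℂ) t = 0 := (dv φ G).2
  have hle : ∀ s ∈ Set.Icc 0 M, ∀ s' ∈ Set.Icc 0 M,
      ‖YW φ s G - YW φ s' G‖ ≤ C * ‖tr s (dv φ G : X) - tr s' (dv φ G : X)‖ := by
    intro s hs s' hs'
    have e1 : ‖YW φ s G - YW φ s' G‖ = ‖(YW φ s G : X) - (YW φ s' G : X)‖ := rfl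
    rw [e1, L1.norm_eq_integral_norm, L1.norm_eq_integral_norm, ← integral_const_mul]
    refine integral_mono_ae (L1.integrable_coeFn _).norm
      ((L1.integrable_coeFn _).norm.const_mul C) ?_
    filter_upwards [Lp.coeFn_sub (YW φ s G : X) (YW φ s' G : X), YW_coe hφ hs.1 G,
      YW_coe hφ hs'.1 G, Lp.coeFn_sub (tr s (dv φ G : X)) (tr s' (dv φ G : X)),
      tr_coe s (dv φ G : X), tr_coe s' (dv φ G : X), ae_shift s hdv, ae_shift s' hdv,
      ae_shift s hdv0, ae_shift s' hdv0] with t h1 h2 h3 h4 h5 h6 h7 h8 h9 h10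
    rw [h1, h4, Pi.sub_apply, Pi.sub_apply, h2, h3, h5, h6, ← mul_sub, norm_mul,
      Complex.norm_real, Real.norm_of_nonneg (one_le_max_zero hφ t).le]
    by_cases ht : |t| ≤ max (N + M) 0
    · exact mul_le_mul_of_nonneg_right (hCb t ht) (norm_nonneg _)
    · push Not at ht
      have h11 : (((dv φ G : Y) : X) : ℝ → ℂ) (t - s) = 0 ∧
          (((dv φ G : Y) : X) : ℝ → ℂ) (t - s') = 0 := by
        rcases le_or_gt 0 t with h0 | h0
        · rw [abs_of_nonneg h0] at ht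
          have h12 : N + M < t := lt_of_le_of_lt (le_max_left _ _) ht
          exact ⟨h7 (by linarith [hs.2]), h8 (by linarith [hs'.2])⟩
        · exact ⟨h9 (by linarith [hs.1]), h10 (by linarith [hs'.1])⟩
      rw [h11.1, h11.2, sub_self, norm_zero, mul_zero, mul_zero]
  rw [Metric.continuousOn_iff]
  intro s hs ε hε
  have hc := (tr_continuous (dv φ G : X)).continuousAt (x := s)
  rw [Metric.continuousAt_iff] at hc
  obtain ⟨δ, hδ, hc2⟩ := hc (ε / C) (by positivity)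
  refine ⟨δ, hδ, fun s' hs' hd => ?_⟩
  have h1 := hc2 hd
  rw [dist_eq_norm] at h1 ⊢
  refine lt_of_le_of_lt (hle s' hs' s hs) ?_
  calc C * ‖tr s' (dv φ G : X) - tr s (dv φ G : X)‖ < C * (ε / C) :=
        mul_lt_mul_of_pos_left h1 hC
    _ = ε := by field_simp

theorem YW_continuous (hφ : IsWeight φ) (F : Y) : Continuous fun s : ℝ => YW φ (max s 0) F := by
  have key : ∀ M : ℝ, 0 ≤ M → ContinuousOn (fun s : ℝ => YW φ s F) (Set.Icc 0 M) := by
    intro M hM
    obtain ⟨C, hC, hCb⟩ := local_bound hφ M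
    rw [Metric.continuousOn_iff]
    intro s hs ε hε
    obtain ⟨N, G, _, hG, hFG⟩ := exists_trunc F (show 0 < ε / (4 * C) by positivity)
    have h1 := YW_continuous_trunc hφ hG hM
    rw [Metric.continuousOn_iff] at h1
    obtain ⟨δ, hδ, h2⟩ := h1 s hs (ε / 2) (by positivity)
    refine ⟨δ, hδ, fun s' hs' hd => ?_⟩
    have h3 := h2 s' hs' hd
    rw [dist_eq_norm] at h3 ⊢
    have h4 : ∀ r ∈ Set.Icc 0 M, ‖YW φ r F - YW φ r G‖ ≤ ε / 4 := by
      intro r hr
      rw [← map_sub]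
      calc ‖YW φ r (F - G)‖ ≤ φ r * ‖F - G‖ := YW_norm hφ hr.1 _
        _ ≤ C * (ε / (4 * C)) := mul_le_mul (hCb r (by rw [abs_of_nonneg hr.1]; exact hr.2)) hFG
            (norm_nonneg _) hC.le
        _ = ε / 4 := by field_simp
    have h5 : YW φ s' F - YW φ s F = (YW φ s' F - YW φ s' G) + (YW φ s' G - YW φ s G) -
        (YW φ s F - YW φ s G) := by abel
    rw [h5]
    calc _ ≤ ‖(YW φ s' F - YW φ s' G) + (YW φ s' G - YW φ s G)‖ + ‖YW φ s F - YW φ s G‖ :=
          norm_sub_le _ _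
      _ ≤ (‖YW φ s' F - YW φ s' G‖ + ‖YW φ s' G - YW φ s G‖) + ‖YW φ s F - YW φ s G‖ :=
          add_le_add_left (norm_add_le _ _) _
      _ < ε := by linarith [h4 s' hs', h4 s hs]
  rw [continuous_iff_continuousAt]
  intro s
  have h1 := key (max s 0 + 1) (by positivity)
  have h2 : ContinuousOn (fun r : ℝ => YW φ (max r 0) F) (Set.Iic (max s 0 + 1)) := by
    refine h1.comp (f := fun r : ℝ => max r 0) (by fun_prop) ?_
    intro r hr
    refine ⟨le_max_right _ _, max_le hr ?_⟩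
    positivity
  exact h2.continuousAt (Iic_mem_nhds (by linarith [le_max_left s 0]))

/-- The semigroup. -/
def WS (hφ : IsWeight φ) : GSemi φ Y where
  T := YW φ
  zero := YW_zero hφ
  add := fun _ _ hs ht x => YW_add hφ hs ht x
  norm_le := fun _ hs x => YW_norm hφ hs x
  cont := YW_continuous hφ

@[simp] theorem WS_T (hφ : IsWeight φ) : (WS hφ).T = YW φ := rfl

/-- The functional `ℓ` on the weighted space is represented by `h`: `ℓ F = ∫ f h`,
`f = F / φ`. -/
def RepW (φ : ℝ → ℝ) (ℓ : Y →L[ℂ] ℂ) (h : ℝ → ℂ) : Prop :=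
  ∀ F : Y, ℓ F = ∫ t : ℝ, ((dv φ F : X) : ℝ → ℂ) t * h t

theorem repW_iff (hφ : IsWeight φ) (ℓ : Y →L[ℂ] ℂ) (h : ℝ → ℂ) :
    RepW φ ℓ h ↔ Rep ℓ (fun t => h t / (φ t : ℂ)) := by
  have key : ∀ F : Y, ∫ t : ℝ, ((dv φ F : X) : ℝ → ℂ) t * h t =
      ∫ t : ℝ, ((F : X) : ℝ → ℂ) t * (h t / (φ t : ℂ)) := by
    intro F
    apply integral_congr_ae
    filter_upwards [dv_coe hφ F] with t ht
    rw [ht]
    ring
  constructor
  · intro H F
    rw [H F, key F]
  · intro H F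
    rw [H F, key F]

theorem repW_shift (hφ : IsWeight φ) {ℓ : Y →L[ℂ] ℂ} {h : ℝ → ℂ} (hr : RepW φ ℓ h) {s : ℝ}
    (hs : 0 ≤ s) (F : Y) :
    ℓ (YW φ s F) = ∫ t : ℝ, ((dv φ F : X) : ℝ → ℂ) t * h (t + s) := by
  rw [hr, dv_YW hφ hs, YT_coe hs]
  have h1 : ∫ t : ℝ, (tr s (dv φ F : X) : ℝ → ℂ) t * h t
      = ∫ t : ℝ, ((dv φ F : X) : ℝ → ℂ) (t - s) * h (t - s + s) := by
    apply integral_congr_ae
    filter_upwards [tr_coe s (dv φ F : X)] with t ht
    rw [ht, sub_add_cancel]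
  rw [h1]
  exact integral_sub_right_eq_self (fun t => ((dv φ F : X) : ℝ → ℂ) t * h (t + s)) s

/-- The character at `z`, `Im z ≤ 0`. -/
def chiW (φ : ℝ → ℝ) (z : ℂ) : Y →L[ℂ] ℂ := (chi z).comp (dv φ)

theorem chiW_apply (z : ℂ) (F : Y) : chiW φ z F = chi z (dv φ F) := rfl

theorem chiW_rep {z : ℂ} (hz : z.im ≤ 0) : RepW φ (chiW φ z) (expPos z) := by
  intro F
  rw [chiW_apply, chi_rep hz]

theorem chiW_YW (hφ : IsWeight φ) {z : ℂ} (hz : z.im ≤ 0) {s : ℝ} (hs : 0 ≤ s) (F : Y) :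
    chiW φ z (YW φ s F) = Complex.exp (-(Complex.I * (s : ℂ) * z)) * chiW φ z F := by
  rw [chiW_apply, dv_YW hφ hs, chi_YT hz hs, ← chiW_apply]

/-- Functions vanishing on the negative half-line in the weighted `L^1` give elements of `Y`. -/
theorem toYW (hφ : IsWeight φ) {f : ℝ → ℂ} (hf : L1 φ f) (h0 : ∀ᵐ t : ℝ, t < 0 → f t = 0) :
    ∃ F : Y, ((dv φ F : X) : ℝ → ℂ) =ᵐ[volume] f := by
  have hi : Integrable (fun t => (φ t : ℂ) * f t) volume := by
    refine hf.2.mono' ((Complex.measurable_ofReal.comp hφ.meas).aestronglyMeasurable.mul hf.1)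
      (Eventually.of_forall fun t => ?_)
    rw [norm_mul, Complex.norm_real, Real.norm_of_nonneg (one_le_max_zero hφ t).le]
  have hm : (memLp_one_iff_integrable.mpr hi).toLp (fun t => (φ t : ℂ) * f t) ∈ Y := by
    rw [mem_Y]
    filter_upwards [(memLp_one_iff_integrable.mpr hi).coeFn_toLp, h0] with t h1 h2 h3
    rw [h1, h2 h3, mul_zero]
  refine ⟨⟨_, hm⟩, ?_⟩
  filter_upwards [dv_coe hφ ⟨_, hm⟩, (memLp_one_iff_integrable.mpr hi).coeFn_toLp] with t h1 h2
  rw [h1]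
  change ((memLp_one_iff_integrable.mpr hi).toLp (fun t => (φ t : ℂ) * f t) : ℝ → ℂ) t / _ = _
  rw [h2]
  have h0 : (φ t : ℂ) ≠ 0 := by exact_mod_cast (one_le_max_zero hφ t).ne'
  field_simp

theorem ofYW (hφ : IsWeight φ) (F : Y) : ∃ f : ℝ → ℂ, L1 φ f ∧ (∀ t, t < 0 → f t = 0) ∧
    ((dv φ F : X) : ℝ → ℂ) =ᵐ[volume] f := by
  have hae : ((dv φ F : X) : ℝ → ℂ) =ᵐ[volume]
      fun t => if 0 ≤ t then ((dv φ F : X) : ℝ → ℂ) t else 0 := by
    have hf : ∀ᵐ t : ℝ, t < 0 → ((dv φ F : X) : ℝ → ℂ) t = 0 := (dv φ F).2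
    filter_upwards [hf] with t ht
    by_cases h0 : t < 0
    · rw [if_neg (not_le.mpr h0), ht h0]
    · rw [if_pos (not_lt.mp h0)]
  refine ⟨_, ⟨(L1.integrable_coeFn (dv φ F : X)).aestronglyMeasurable.congr hae, ?_⟩,
    fun t ht => if_neg (not_le.mpr ht), hae⟩
  refine (L1.integrable_coeFn (F : X)).norm.congr ?_
  filter_upwards [hae, coe_eq_mul_dv hφ F] with t h1 h2
  rw [← h1, h2, norm_mul, Complex.norm_real, Real.norm_of_nonneg (one_le_max_zero hφ t).le]

/-- Elements of the weighted space of bounded functions give functionals. -/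
theorem exists_functionalW (hφ : IsWeight φ) {g : ℝ → ℂ} (hg : LInfPos φ g) :
    ∃ ℓ : Y →L[ℂ] ℂ, RepW φ ℓ g := by
  obtain ⟨⟨hm, C, hC⟩, _⟩ := hg
  obtain ⟨ℓ, h1, _⟩ := exists_rep (fun t => g t / (φ t : ℂ))
    (hm.mul ((Complex.measurable_ofReal.comp hφ.meas).inv).aestronglyMeasurable) C (by
      filter_upwards [hC] with t ht
      rw [norm_div, Complex.norm_real, Real.norm_of_nonneg (one_le_max_zero hφ t).le,
        div_le_iff₀ (one_le_max_zero hφ t)]
      exact ht)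
  exact ⟨ℓ, (repW_iff hφ ℓ g).mpr h1⟩

end weight

end

end Pool.Agent.WKS
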