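import Pool.Agent.Helper67_WKS.Base
import Pool.Agent.Helper85_E.Lapu
import Pool.Agent.Helper78_E.Simple

/-!
# MP_7d2497_an: closed invariant subspaces of the weighted half-line space, quotient semigroup
-/

namespace Pool.Agent.WKS

open MeasureTheory Filter Topology Complex
open Pool.Agent.H78E (IsWeight LInf LInfPos L1 X Y Rep tr tr_coe YT YT_coe YS mem_Y expPos chi
  chi_rep chi_norm ez rr rr_coe ez_coe chi_ez chi_rr chi_eq_Ioi one_add_ne)

noncomputable section

/-- Closed invariant subspaces of the weighted half-line space. -/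
structure ISub (φ : ℝ → ℝ) where
  I : Submodule ℂ Y
  closed : IsClosed (I : Set Y)
  inv : ∀ s : ℝ, 0 ≤ s → ∀ f ∈ I, YW φ s f ∈ I

namespace ISub

variable {φ : ℝ → ℝ} (J : ISub φ)

/-- The quotient space. -/
def Q : Type := Y ⧸ J.I

instance : NormedAddCommGroup J.Q :=
  haveI := J.closed
  inferInstanceAs (NormedAddCommGroup (Y ⧸ J.I))

instance : NormedSpace ℂ J.Q :=
  haveI := J.closed
  inferInstanceAs (NormedSpace ℂ (Y ⧸ J.I))

instance : CompleteSpace J.Q :=
  haveI := J.closed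
  inferInstanceAs (CompleteSpace (Y ⧸ J.I))

/-- The quotient map. -/
def qm : Y →L[ℂ] J.Q :=
  haveI := J.closed
  J.I.mkQL

theorem qm_surj : Function.Surjective J.qm := J.I.mkQ_surjective

theorem qm_eq_zero {f : Y} : J.qm f = 0 ↔ f ∈ J.I := Submodule.Quotient.mk_eq_zero J.I

theorem qm_norm_le (f : Y) : ‖J.qm f‖ ≤ ‖f‖ :=
  haveI := J.closed
  Submodule.Quotient.norm_mk_le J.I f

theorem exists_lift (x : J.Q) {ε : ℝ} (hε : 0 < ε) : ∃ f : Y, J.qm f = x ∧ ‖f‖ < ‖x‖ + ε :=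
  haveI := J.closed
  Submodule.Quotient.norm_mk_lt (S := J.I) x hε

/-- Lift of an operator vanishing on the subspace. -/
def lift {F : Type} [NormedAddCommGroup F] [NormedSpace ℂ F] (A : Y →L[ℂ] F)
    (hA : ∀ f ∈ J.I, A f = 0) : J.Q →L[ℂ] F :=
  haveI := J.closed
  J.I.liftQL A (fun f hf => hA f hf)

theorem lift_qm {F : Type} [NormedAddCommGroup F] [NormedSpace ℂ F] (A : Y →L[ℂ] F)
    (hA : ∀ f ∈ J.I, A f = 0) (f : Y) : J.lift A hA (J.qm f) = A f := rfl

/-- The quotient semigroup. -/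
def S (hφ : IsWeight φ) : GSemi φ J.Q where
  T := fun s => J.lift (J.qm.comp (YW φ (max s 0)))
    (fun f hf => J.qm_eq_zero.mpr (J.inv _ (le_max_right _ _) f hf))
  zero := by
    intro x
    obtain ⟨f, rfl⟩ := J.qm_surj x
    rw [lift_qm, ContinuousLinearMap.comp_apply, max_self, YW_zero hφ]
  add := by
    intro s t hs ht x
    obtain ⟨f, rfl⟩ := J.qm_surj x
    rw [lift_qm, lift_qm, ContinuousLinearMap.comp_apply, ContinuousLinearMap.comp_apply,
      lift_qm, ContinuousLinearMap.comp_apply, max_eq_left hs, max_eq_left ht,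
      max_eq_left (add_nonneg hs ht), YW_add hφ hs ht]
  norm_le := by
    intro s hs x
    have h0 : 0 ≤ φ s := zero_le_one.trans (hφ.one_le s)
    apply le_of_forall_pos_le_add
    intro ε hε
    obtain ⟨f, rfl, hf⟩ := J.exists_lift x (ε := ε / (φ s + 1)) (by positivity)
    rw [lift_qm, ContinuousLinearMap.comp_apply, max_eq_left hs]
    refine (J.qm_norm_le _).trans ((YW_norm hφ hs f).trans ?_)
    calc φ s * ‖f‖ ≤ φ s * (‖J.qm f‖ + ε / (φ s + 1)) := mul_le_mul_of_nonneg_left hf.le h0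
      _ = φ s * ‖J.qm f‖ + ε * (φ s / (φ s + 1)) := by ring
      _ ≤ φ s * ‖J.qm f‖ + ε * 1 := by
          gcongr
          exact (div_le_one (by linarith)).mpr (by linarith)
      _ = _ := by rw [mul_one]
  cont := by
    intro x
    obtain ⟨f, rfl⟩ := J.qm_surj x
    simp only [lift_qm, ContinuousLinearMap.comp_apply]
    have h := J.qm.continuous.comp (YW_continuous hφ f)
    have e : (fun s : ℝ => J.qm (YW φ (max (max s 0) 0) f)) =
        (J.qm ∘ fun s : ℝ => YW φ (max s 0) f) := by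
      ext1 s
      simp only [Function.comp]
      rw [max_eq_left (le_max_right s 0)]
    rw [e]
    exact h

theorem qm_T (hφ : IsWeight φ) {s : ℝ} (hs : 0 ≤ s) (f : Y) :
    J.qm (YW φ s f) = (J.S hφ).T s (J.qm f) := by
  change J.qm (YW φ s f) = J.lift _ _ (J.qm f)
  rw [lift_qm, ContinuousLinearMap.comp_apply, max_eq_left hs]

theorem qm_pi (hφ : IsWeight φ) (g : ℝ → ℂ) (f : Y) :
    J.qm ((WS hφ).pi g f) = (J.S hφ).pi g (J.qm f) :=
  (WS hφ).pi_commute (J.S hφ) J.qm (fun _ hs x => J.qm_T hφ hs x) g f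

end ISub

variable {φ : ℝ → ℝ}

theorem chiW_pi (hφ : IsWeight φ) {z : ℂ} (hz : z.im ≤ 0) (f : Y) {g : ℝ → ℂ} (hg : GI φ g) :
    chiW φ z ((WS hφ).pi g f) =
      (∫ t in Set.Ioi (0 : ℝ), g t * Complex.exp (-(Complex.I * (t : ℂ) * z))) * chiW φ z f := by
  have h := ContinuousLinearMap.integral_comp_comm (chiW φ z) ((WS hφ).cont_mul hg f)
  rw [(WS hφ).pi_apply hg]
  refine Eq.trans h.symm ?_
  rw [← integral_mul_const]
  apply setIntegral_congr_fun measurableSet_Ioi
  intro s hs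
  simp only [map_smul, WS_T, smul_eq_mul]
  rw [chiW_YW hφ hz (le_of_lt hs)]
  ring

/-- Uniqueness of the Laplace transform on the weighted space. -/
theorem lapuW (hφ : IsWeight φ) {f : Y} (h : ∀ z : ℂ, z.im < 0 → chiW φ z f = 0) : f = 0 := by
  apply dv_injective hφ
  rw [map_zero]
  exact Pool.Agent.H78E.H85.lapu _ (fun z hz => h z hz)

theorem GI_dv (hφ : IsWeight φ) (F : Y) : GI φ ((dv φ F : X) : ℝ → ℂ) := by
  refine ⟨(L1.integrable_coeFn (dv φ F : X)).aestronglyMeasurable.restrict, ?_⟩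
  have h : Integrable (fun t => φ t * ‖((dv φ F : X) : ℝ → ℂ) t‖) volume := by
    refine (L1.integrable_coeFn (F : X)).norm.congr ?_
    filter_upwards [coe_eq_mul_dv hφ F] with t h2
    rw [h2, norm_mul, Complex.norm_real, Real.norm_of_nonneg (one_le_max_zero hφ t).le]
  exact h.integrableOn

theorem chiW_eq_Ioi {z : ℂ} (hz : z.im ≤ 0) (f : Y) :
    chiW φ z f = ∫ t in Set.Ioi (0 : ℝ), ((dv φ f : X) : ℝ → ℂ) t *
      Complex.exp (-(Complex.I * (t : ℂ) * z)) := by
  rw [chiW_apply, chi_eq_Ioi hz]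

/-- The convolution of two elements of the weighted half-line space. -/
def convW (hφ : IsWeight φ) (f g : Y) : Y := (WS hφ).pi ((dv φ f : X) : ℝ → ℂ) g

theorem chiW_conv (hφ : IsWeight φ) {z : ℂ} (hz : z.im ≤ 0) (f g : Y) :
    chiW φ z (convW hφ f g) = chiW φ z f * chiW φ z g := by
  unfold convW
  rw [chiW_pi hφ hz g (GI_dv hφ f), ← chiW_eq_Ioi hz f]

theorem convW_comm (hφ : IsWeight φ) (f g : Y) : convW hφ f g = convW hφ g f := by
  rw [← sub_eq_zero]
  apply lapuW hφ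
  intro z hz
  rw [map_sub, chiW_conv hφ hz.le, chiW_conv hφ hz.le, mul_comm, sub_self]

namespace ISub

variable (J : ISub φ)

theorem pi_mem (hφ : IsWeight φ) (g : ℝ → ℂ) {f : Y} (hf : f ∈ J.I) : (WS hφ).pi g f ∈ J.I := by
  rw [← J.qm_eq_zero, J.qm_pi, J.qm_eq_zero.mpr hf, map_zero]

theorem conv_mem_right (hφ : IsWeight φ) (f : Y) {g : Y} (hg : g ∈ J.I) :
    convW hφ f g ∈ J.I := J.pi_mem hφ _ hg

theorem conv_mem_left (hφ : IsWeight φ) {f : Y} (hf : f ∈ J.I) (g : Y) :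
    convW hφ f g ∈ J.I := by
  rw [convW_comm hφ]
  exact J.conv_mem_right hφ g hf

/-- Elements of the subspace act as zero on the quotient. -/
theorem pi_eq_zero (hφ : IsWeight φ) {f : Y} (hf : f ∈ J.I) :
    (J.S hφ).pi ((dv φ f : X) : ℝ → ℂ) = 0 := by
  ext x
  obtain ⟨g, rfl⟩ := J.qm_surj x
  rw [← J.qm_pi]
  exact J.qm_eq_zero.mpr (J.conv_mem_left hφ hf g)

end ISub

end

end Pool.Agent.WKS
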