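import Pool.Agent.Helper78_E.Res
import Pool.Agent.Helper15_E.Line

/-!
# MP_7d2497_an: strongly continuous semigroups of growth `w`, resolvents
-/

namespace Pool.Agent.WKS

open MeasureTheory Filter Topology Complex
open Pool.Agent.H78E

noncomputable section

/-- Strongly continuous semigroups of growth `w`. -/
structure GSemi (w : ℝ → ℝ) (E : Type) [NormedAddCommGroup E] [NormedSpace ℂ E] where
  T : ℝ → E →L[ℂ] E
  zero : ∀ x, T 0 x = x
  add : ∀ s t, 0 ≤ s → 0 ≤ t → ∀ x, T (s + t) x = T s (T t x)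
  norm_le : ∀ s, 0 ≤ s → ∀ x, ‖T s x‖ ≤ w s * ‖x‖
  cont : ∀ x, Continuous fun s : ℝ => T (max s 0) x

/-- Functions on the half-line which are integrable against `w`. -/
def GI (w : ℝ → ℝ) (f : ℝ → ℂ) : Prop :=
  AEStronglyMeasurable f (volume.restrict (Set.Ioi 0)) ∧
    IntegrableOn (fun s : ℝ => w s * ‖f s‖) (Set.Ioi 0) volume

theorem GI.congr {w : ℝ → ℝ} {f g : ℝ → ℂ} (hf : GI w f)
    (h : f =ᵐ[volume.restrict (Set.Ioi 0)] g) : GI w g := by
  refine ⟨hf.1.congr h, hf.2.congr ?_⟩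
  filter_upwards [h] with t ht
  rw [ht]

theorem GI.add {w : ℝ → ℝ} (hwm : Measurable w) (hw0 : ∀ t, 0 ≤ w t) {f g : ℝ → ℂ} (hf : GI w f)
    (hg : GI w g) : GI w (fun t => f t + g t) := by
  refine ⟨hf.1.add hg.1, ?_⟩
  refine (Integrable.add hf.2 hg.2).mono' (hwm.aestronglyMeasurable.mul (hf.1.add hg.1).norm) ?_
  refine Eventually.of_forall fun t => ?_
  rw [Real.norm_of_nonneg (mul_nonneg (hw0 t) (norm_nonneg _))]
  rw [Pi.add_apply, ← mul_add]
  exact mul_le_mul_of_nonneg_left (norm_add_le _ _) (hw0 t)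

theorem GI.const_mul {w : ℝ → ℝ} {f : ℝ → ℂ} (hf : GI w f) (c : ℂ) : GI w (fun t => c * f t) := by
  refine ⟨hf.1.const_mul c, ?_⟩
  have h := Integrable.const_mul hf.2 ‖c‖
  refine h.congr ?_
  filter_upwards with t
  rw [norm_mul]
  ring

theorem GI.zero {w : ℝ → ℝ} : GI w (fun _ => 0) := by
  refine ⟨aestronglyMeasurable_const, ?_⟩
  simp only [norm_zero, mul_zero]
  exact integrableOn_zero

theorem GI.sum {w : ℝ → ℝ} (hwm : Measurable w) (hw0 : ∀ t, 0 ≤ w t) {ι : Type} (s : Finset ι)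
    {g : ι → ℝ → ℂ} (hg : ∀ i, GI w (g i)) : GI w (fun t => ∑ i ∈ s, g i t) := by
  classical
  induction s using Finset.induction_on with
  | empty =>
    simp only [Finset.sum_empty]
    exact GI.zero
  | insert i s hi ih =>
    simp only [Finset.sum_insert hi]
    exact (hg i).add hwm hw0 ih

theorem GI.integrable {w : ℝ → ℝ} (hw1 : ∀ t, 1 ≤ w t) {f : ℝ → ℂ} (hf : GI w f) :
    IntegrableOn f (Set.Ioi 0) volume := by
  refine Integrable.mono' hf.2 hf.1 (Eventually.of_forall fun t => ?_)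
  calc ‖f t‖ = 1 * ‖f t‖ := (one_mul _).symm
    _ ≤ w t * ‖f t‖ := mul_le_mul_of_nonneg_right (hw1 t) (norm_nonneg _)

theorem GI.exp {w : ℝ → ℝ} (hw : IsWeight w) {a : ℂ} (ha : 0 < a.re) :
    GI w (fun s : ℝ => Complex.exp (-(a * (s : ℂ)))) := by
  refine ⟨Continuous.aestronglyMeasurable (by fun_prop), ?_⟩
  have h := (Pool.Agent.Helper15_E.integrable_weight hw ha).integrableOn (s := Set.Ioi (0 : ℝ))
  refine h.congr_fun ?_ measurableSet_Ioi
  intro t ht
  simp only
  rw [Complex.norm_exp, abs_of_pos (Set.mem_Ioi.mp ht)]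
  congr 2
  simp

namespace GSemi

variable {w : ℝ → ℝ} {E : Type} [NormedAddCommGroup E] [NormedSpace ℂ E] (S : GSemi w E)

theorem cont_mul {f : ℝ → ℂ} (hf : GI w f) (x : E) :
    IntegrableOn (fun s => f s • S.T s x) (Set.Ioi 0) volume := by
  have h1 : IntegrableOn (fun s : ℝ => w s * ‖f s‖ * ‖x‖) (Set.Ioi 0) volume := hf.2.mul_const _
  refine Integrable.mono' h1 ?_ ?_
  · have h2 : AEStronglyMeasurable (fun s : ℝ => f s • S.T (max s 0) x)
        (volume.restrict (Set.Ioi 0)) :=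
      hf.1.smul (S.cont x).aestronglyMeasurable
    refine h2.congr ?_
    filter_upwards [ae_restrict_mem measurableSet_Ioi] with s hs
    rw [max_eq_left (le_of_lt hs)]
  · filter_upwards [ae_restrict_mem measurableSet_Ioi] with s hs
    rw [norm_smul]
    calc ‖f s‖ * ‖S.T s x‖ ≤ ‖f s‖ * (w s * ‖x‖) :=
          mul_le_mul_of_nonneg_left (S.norm_le s (le_of_lt hs) x) (norm_nonneg _)
      _ = w s * ‖f s‖ * ‖x‖ := by ring

theorem norm_integral_le {f : ℝ → ℂ} (hf : GI w f) (x : E) :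
    ‖∫ s in Set.Ioi (0 : ℝ), f s • S.T s x‖ ≤ (∫ s in Set.Ioi (0 : ℝ), w s * ‖f s‖) * ‖x‖ := by
  have h1 : ‖∫ s in Set.Ioi (0 : ℝ), f s • S.T s x‖
      ≤ ∫ s in Set.Ioi (0 : ℝ), w s * ‖f s‖ * ‖x‖ := by
    refine norm_integral_le_of_norm_le (hf.2.mul_const _) ?_
    filter_upwards [ae_restrict_mem measurableSet_Ioi] with s hs
    rw [norm_smul]
    calc ‖f s‖ * ‖S.T s x‖ ≤ ‖f s‖ * (w s * ‖x‖) :=
          mul_le_mul_of_nonneg_left (S.norm_le s (le_of_lt hs) x) (norm_nonneg _)
      _ = w s * ‖f s‖ * ‖x‖ := by ring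
  rw [integral_mul_const] at h1
  exact h1

variable [CompleteSpace E]

/-- The operator `x ↦ ∫_0^∞ f(s) T_s x ds`. -/
def pi (f : ℝ → ℂ) : E →L[ℂ] E :=
  open Classical in
  if hf : GI w f then
    LinearMap.mkContinuous
      { toFun := fun x => ∫ s in Set.Ioi (0 : ℝ), f s • S.T s x
        map_add' := by
          intro x y
          rw [← integral_add (S.cont_mul hf x) (S.cont_mul hf y)]
          congr 1
          ext1 s
          rw [map_add, smul_add]
        map_smul' := by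
          intro c x
          rw [RingHom.id_apply, ← integral_smul]
          congr 1
          ext1 s
          rw [map_smul, smul_comm] }
      (∫ s in Set.Ioi (0 : ℝ), w s * ‖f s‖)
      (S.norm_integral_le hf)
  else 0

theorem pi_apply {f : ℝ → ℂ} (hf : GI w f) (x : E) :
    S.pi f x = ∫ s in Set.Ioi (0 : ℝ), f s • S.T s x := by
  unfold pi
  rw [dif_pos hf]
  rfl

theorem pi_norm (hw0 : ∀ t, 0 ≤ w t) {f : ℝ → ℂ} (hf : GI w f) :
    ‖S.pi f‖ ≤ ∫ s in Set.Ioi (0 : ℝ), w s * ‖f s‖ := by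
  refine ContinuousLinearMap.opNorm_le_bound _
    (integral_nonneg fun t => mul_nonneg (hw0 t) (norm_nonneg _)) ?_
  intro x
  rw [S.pi_apply hf]
  exact S.norm_integral_le hf x

theorem pi_add (hwm : Measurable w) (hw0 : ∀ t, 0 ≤ w t) {f g : ℝ → ℂ} (hf : GI w f)
    (hg : GI w g) : S.pi (fun t => f t + g t) = S.pi f + S.pi g := by
  ext x
  rw [add_apply, S.pi_apply hf, S.pi_apply hg, S.pi_apply (hf.add hwm hw0 hg),
    ← integral_add (S.cont_mul hf x) (S.cont_mul hg x)]
  congr 1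
  ext1 s
  rw [add_smul]

theorem pi_smul (c : ℂ) {f : ℝ → ℂ} (hf : GI w f) :
    S.pi (fun t => c * f t) = c • S.pi f := by
  ext x
  rw [smul_apply, S.pi_apply hf, S.pi_apply (hf.const_mul c), ← integral_smul]
  congr 1
  ext1 s
  rw [mul_smul]

theorem pi_congr {f g : ℝ → ℂ} (h : ∀ᵐ t : ℝ, 0 < t → f t = g t) : S.pi f = S.pi g := by
  have h' : f =ᵐ[volume.restrict (Set.Ioi 0)] g := (ae_restrict_iff' measurableSet_Ioi).mpr h
  by_cases hf : GI w f
  · have hg : GI w g := hf.congr h'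
    ext x
    rw [S.pi_apply hf, S.pi_apply hg]
    apply integral_congr_ae
    filter_upwards [h'] with t ht
    rw [ht]
  · have hg : ¬ GI w g := fun hg => hf (hg.congr h'.symm)
    unfold pi
    rw [dif_neg hf, dif_neg hg]

/-- `S.pi f` commutes with every operator commuting with the semigroup. -/
theorem pi_commute {F : Type} [NormedAddCommGroup F] [NormedSpace ℂ F] [CompleteSpace F]
    (S' : GSemi w F) (A : E →L[ℂ] F) (hA : ∀ s, 0 ≤ s → ∀ x, A (S.T s x) = S'.T s (A x))
    (f : ℝ → ℂ) (x : E) : A (S.pi f x) = S'.pi f (A x) := by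
  by_cases hf : GI w f
  · rw [S.pi_apply hf, S'.pi_apply hf, ← ContinuousLinearMap.integral_comp_comm A (S.cont_mul hf x)]
    apply setIntegral_congr_fun measurableSet_Ioi
    intro s hs
    simp only [map_smul]
    rw [hA s (le_of_lt hs)]
  · unfold pi
    rw [dif_neg hf, dif_neg hf]
    simp

/-- The resolvent operators `E_a = ∫_0^∞ exp(-as) T_s ds`, `Re a > 0`. -/
def En (a : ℂ) : E →L[ℂ] E := S.pi (fun s => Complex.exp (-(a * (s : ℂ))))

theorem En_apply (hw : IsWeight w) {a : ℂ} (ha : 0 < a.re) (x : E) :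
    S.En a x = ∫ s in Set.Ioi (0 : ℝ), Complex.exp (-(a * (s : ℂ))) • S.T s x :=
  S.pi_apply (GI.exp hw ha) x

/-- `exp(-av) T_v E_a x = E_a x - ∫_0^v exp(-as) T_s x ds`. -/
theorem T_En (hw : IsWeight w) {a : ℂ} (ha : 0 < a.re) (x : E) {v : ℝ} (hv : 0 ≤ v) :
    Complex.exp (-(a * (v : ℂ))) • S.T v (S.En a x) = S.En a x -
      ∫ s in (0 : ℝ)..v, Complex.exp (-(a * (s : ℂ))) • S.T (max s 0) x := by
  have hi : IntegrableOn (fun s : ℝ => Complex.exp (-(a * (s : ℂ))) • S.T (max s 0) x)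
      (Set.Ioi 0) volume := by
    refine (S.cont_mul (GI.exp hw ha) x).congr_fun ?_ measurableSet_Ioi
    intro s hs
    simp only [max_eq_left (le_of_lt (Set.mem_Ioi.mp hs))]
  have hE : S.En a x = ∫ s in Set.Ioi (0 : ℝ),
      Complex.exp (-(a * (s : ℂ))) • S.T (max s 0) x := by
    rw [S.En_apply hw ha]
    apply setIntegral_congr_fun measurableSet_Ioi
    intro s hs
    simp only [max_eq_left (le_of_lt (Set.mem_Ioi.mp hs))]
  have h2 : ∫ s in (0 : ℝ)..v, Complex.exp (-(a * (s : ℂ))) • S.T (max s 0) x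
      = S.En a x - ∫ s in Set.Ioi v, Complex.exp (-(a * (s : ℂ))) • S.T (max s 0) x := by
    rw [hE, ← intervalIntegral.integral_interval_add_Ioi hi
      (hi.mono_set (Set.Ioi_subset_Ioi hv)), add_sub_cancel_right]
  rw [h2, sub_sub_cancel, S.En_apply hw ha,
    ← ContinuousLinearMap.integral_comp_comm _ (S.cont_mul (GI.exp hw ha) x),
    ← integral_smul]
  rw [← integral_indicator measurableSet_Ioi, ← integral_indicator measurableSet_Ioi]
  rw [← integral_add_right_eq_self (μ := (volume : Measure ℝ)) (fun s => (Set.Ioi v).indicator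
    (fun s : ℝ => Complex.exp (-(a * (s : ℂ))) • S.T (max s 0) x) s) v]
  congr 1
  ext1 s
  by_cases hs : 0 < s
  · rw [Set.indicator_of_mem (show s ∈ Set.Ioi (0 : ℝ) from hs),
      Set.indicator_of_mem (show s + v ∈ Set.Ioi v by simpa using hs)]
    rw [map_smul, smul_smul, ← Complex.exp_add, max_eq_left (by linarith : (0 : ℝ) ≤ s + v),
      add_comm s v, S.add v s hv hs.le]
    congr 2
    push_cast
    ring
  · rw [Set.indicator_of_notMem (show s ∉ Set.Ioi (0 : ℝ) from hs),
      Set.indicator_of_notMem (show s + v ∉ Set.Ioi v by simpa using hs)]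

theorem hasDerivAt_T_En (hw : IsWeight w) {a : ℂ} (ha : 0 < a.re) (c : ℂ) (x : E) {v : ℝ}
    (hv : 0 < v) :
    HasDerivAt (fun v : ℝ => Complex.exp (c * (v : ℂ)) • S.T v (S.En a x))
      (Complex.exp (c * (v : ℂ)) • ((c + a) • S.T v (S.En a x) - S.T v x)) v := by
  have hG : HasDerivAt (fun v : ℝ => ∫ s in (0 : ℝ)..v,
      Complex.exp (-(a * (s : ℂ))) • S.T (max s 0) x)
      (Complex.exp (-(a * (v : ℂ))) • S.T (max v 0) x) v := by
    have hc : Continuous fun s : ℝ => Complex.exp (-(a * (s : ℂ))) • S.T (max s 0) x := by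
      refine Continuous.smul ?_ (S.cont x)
      fun_prop
    exact (hc.integral_hasStrictDerivAt 0 v).hasDerivAt
  have hexp : HasDerivAt (fun v : ℝ => Complex.exp ((c + a) * (v : ℂ)))
      (Complex.exp ((c + a) * (v : ℂ)) * (c + a)) v := by
    have h1 : HasDerivAt (fun v : ℝ => (c + a) * (v : ℂ)) ((c + a) * 1) v :=
      (Complex.ofRealCLM.hasDerivAt (x := v)).const_mul (c + a)
    have := h1.cexp
    simpa using this
  have h3 := hexp.smul (hG.const_sub (S.En a x))
  have hev : (fun v : ℝ => Complex.exp (c * (v : ℂ)) • S.T v (S.En a x)) =ᶠ[𝓝 v]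
      (fun v : ℝ => Complex.exp ((c + a) * (v : ℂ)) • (S.En a x -
        ∫ s in (0 : ℝ)..v, Complex.exp (-(a * (s : ℂ))) • S.T (max s 0) x)) := by
    filter_upwards [lt_mem_nhds hv] with w hw'
    rw [← S.T_En hw ha x hw'.le, smul_smul, ← Complex.exp_add]
    congr 2
    ring
  refine (h3.congr_of_eventuallyEq hev).congr_deriv ?_
  rw [← S.T_En hw ha x hv.le, max_eq_left hv.le]
  have e1 : Complex.exp ((c + a) * (v : ℂ)) = Complex.exp (c * (v : ℂ)) * Complex.exp (a * v) := by
    rw [← Complex.exp_add]; congr 1; ring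
  have e2 : Complex.exp (a * (v : ℂ)) * Complex.exp (-(a * (v : ℂ))) = 1 := by
    rw [← Complex.exp_add]; simp
  simp only [smul_sub, smul_neg, smul_smul]
  rw [e1]
  have e3 : Complex.exp (c * (v : ℂ)) * Complex.exp (a * (v : ℂ)) *
      Complex.exp (-(a * (v : ℂ))) = Complex.exp (c * (v : ℂ)) := by
    rw [mul_assoc, e2, mul_one]
  have e4 : Complex.exp (c * (v : ℂ)) * Complex.exp (a * (v : ℂ)) * (c + a) *
      Complex.exp (-(a * (v : ℂ))) = Complex.exp (c * (v : ℂ)) * (c + a) := by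
    calc _ = Complex.exp (c * (v : ℂ)) * Complex.exp (a * (v : ℂ)) *
      Complex.exp (-(a * (v : ℂ))) * (c + a) := by ring
      _ = _ := by rw [e3]
  rw [e3, e4]
  abel

theorem pi_sum (hw : IsWeight w) {ι : Type} (s : Finset ι) (c : ι → ℂ) (g : ι → ℝ → ℂ)
    (hg : ∀ i, GI w (g i)) :
    S.pi (fun t => ∑ i ∈ s, c i * g i t) = ∑ i ∈ s, c i • S.pi (g i) := by
  have hw0 : ∀ t, 0 ≤ w t := fun t => zero_le_one.trans (hw.one_le t)
  classical
  induction s using Finset.induction_on with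
  | empty =>
    simp only [Finset.sum_empty]
    ext x
    rw [S.pi_apply GI.zero]
    simp
  | insert i s hi ih =>
    simp only [Finset.sum_insert hi]
    rw [← ih, ← S.pi_smul (c i) (hg i), ← S.pi_add hw.meas hw0]
    · exact (hg i).const_mul _
    · exact GI.sum hw.meas hw0 _ fun j => (hg j).const_mul _

omit [CompleteSpace E] in
/-- the function `v ↦ exp(cv) T_v y` is continuous from the right at `0` -/
theorem cont_zero (c : ℂ) (y : E) :
    ContinuousWithinAt (fun v : ℝ => Complex.exp (c * (v : ℂ)) • S.T v y) (Set.Ici 0) 0 := by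
  have h1 : Continuous (fun v : ℝ => Complex.exp (c * (v : ℂ)) • S.T (max v 0) y) := by
    refine Continuous.smul ?_ (S.cont y)
    fun_prop
  refine h1.continuousWithinAt.congr ?_ ?_
  · intro v hv
    rw [max_eq_left hv]
  · rw [max_self]

/-- Resolvent identity. -/
theorem resid (hw : IsWeight w) {a b : ℂ} (ha : 0 < a.re) (hb : 0 < b.re) (x : E) :
    S.En a x - S.En b x = (b - a) • S.En a (S.En b x) := by
  have h := integral_Ioi_of_hasDerivAt_of_tendsto (a := (0 : ℝ)) (m := (0 : E))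
    (f := fun v : ℝ => Complex.exp (-a * (v : ℂ)) • S.T v (S.En b x))
    (f' := fun v : ℝ => Complex.exp (-a * (v : ℂ)) • ((-a + b) • S.T v (S.En b x) - S.T v x))
    (S.cont_zero _ _) (fun v hv => S.hasDerivAt_T_En hw hb (-a) x hv) ?_ ?_
  · have e1 : (fun v : ℝ => Complex.exp (-a * (v : ℂ)) • ((-a + b) • S.T v (S.En b x) - S.T v x)) =
        fun v : ℝ => (-a + b) • (Complex.exp (-(a * (v : ℂ))) • S.T v (S.En b x)) -
          Complex.exp (-(a * (v : ℂ))) • S.T v x := by
      funext v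
      rw [smul_sub, smul_comm, neg_mul]
    rw [e1, integral_sub, integral_smul, ← S.En_apply hw ha, ← S.En_apply hw ha] at h
    · have e0 : Complex.exp (-a * ((0 : ℝ) : ℂ)) • S.T 0 (S.En b x) = S.En b x := by
        rw [S.zero]
        simp
      rw [e0, zero_sub] at h
      have e2 : (b - a) • S.En a (S.En b x) = (-a + b) • S.En a (S.En b x) := by
        congr 1
        ring
      rw [e2]
      have e3 : (-a + b) • S.En a (S.En b x) = S.En a x + ((-a + b) • S.En a (S.En b x) - S.En a x) := by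
        abel
      rw [e3, h]
      abel
    · exact (S.cont_mul (GI.exp hw ha) _).smul _
    · exact S.cont_mul (GI.exp hw ha) _
  · have h1 := (S.cont_mul (GI.exp hw ha) (S.En b x)).smul (-a + b)
    have h2 := S.cont_mul (GI.exp hw ha) x
    refine (h1.sub h2).congr ?_
    filter_upwards with v
    simp only [Pi.sub_apply, Pi.smul_apply]
    rw [smul_sub, smul_comm, neg_mul]
  · rw [tendsto_zero_iff_norm_tendsto_zero]
    obtain ⟨C, hC, hwb⟩ := Pool.Agent.Helper15_E.weight_bound hw (half_pos ha)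
    have h1 : Tendsto (fun v : ℝ => C * Real.exp (-(a.re / 2) * v) * ‖S.En b x‖) atTop (𝓝 0) := by
      have h2 : Tendsto (fun v : ℝ => Real.exp (-(a.re / 2) * v)) atTop (𝓝 0) := by
        refine Real.tendsto_exp_atBot.comp ?_
        exact tendsto_id.const_mul_atTop_of_neg (by linarith)
      simpa using (h2.const_mul C).mul_const ‖S.En b x‖
    refine squeeze_zero' (Eventually.of_forall fun _ => norm_nonneg _) ?_ h1
    filter_upwards [eventually_ge_atTop 0] with v hv
    have e1 : ‖Complex.exp (-a * (v : ℂ))‖ = Real.exp (-a.re * v) := by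
      rw [Complex.norm_exp]
      simp
    rw [norm_smul, e1]
    have h3 := S.norm_le v hv (S.En b x)
    have h4 := hwb v
    rw [abs_of_nonneg hv] at h4
    calc Real.exp (-a.re * v) * ‖S.T v (S.En b x)‖
        ≤ Real.exp (-a.re * v) * (w v * ‖S.En b x‖) :=
          mul_le_mul_of_nonneg_left h3 (Real.exp_pos _).le
      _ ≤ Real.exp (-a.re * v) * (C * Real.exp (a.re / 2 * v) * ‖S.En b x‖) := by
          gcongr
      _ = C * (Real.exp (-a.re * v) * Real.exp (a.re / 2 * v)) * ‖S.En b x‖ := by ring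
      _ = C * Real.exp (-(a.re / 2) * v) * ‖S.En b x‖ := by
          rw [← Real.exp_add]
          congr 3
          ring

end GSemi

end

end Pool.Agent.WKS
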