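import Pool.Agent.Helper67_WKS.Res
import Pool.Agent.Helper72_E.Bip
import Pool.Agent.Helper61_E.Dual

/-!
# MP_7d2497_an: module SYN, simple discrete spectrum gives spectral synthesis
-/

namespace Pool.Agent.WKS

open MeasureTheory Filter Topology Complex
open Pool.Agent.H78E (IsWeight LInf LInfPos L1 BPos SpecPos SimpleSpec X Y Rep tr tr_coe YT YT_coe
  YS mem_Y expPos chi chi_rep chi_norm ez rr rr_coe ez_coe chi_ez chi_rr chi_eq_Ioi one_add_ne
  norm_expPos integral_exp_im expPos_linfPos)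

noncomputable section

variable {φ : ℝ → ℝ}

/-- The annihilator of a functional and all its translates. -/
def annW (hφ : IsWeight φ) (k : Y →L[ℂ] ℂ) : ISub φ where
  I :=
    { carrier := {f | ∀ s : ℝ, 0 ≤ s → k (YW φ s f) = 0}
      add_mem' := by
        intro a b ha hb s hs
        rw [map_add, map_add, ha s hs, hb s hs, add_zero]
      zero_mem' := by
        intro s _
        rw [map_zero, map_zero]
      smul_mem' := by
        intro c a ha s hs
        rw [map_smul, map_smul, ha s hs, smul_zero] }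
  closed := by
    change IsClosed {f : Y | ∀ s : ℝ, 0 ≤ s → k (YW φ s f) = 0}
    simp only [Set.ofPred_forall]
    refine isClosed_iInter fun s => isClosed_iInter fun _ => ?_
    exact isClosed_eq (k.continuous.comp (YW φ s).continuous) continuous_const
  inv := by
    intro t ht f hf s hs
    rw [← YW_add hφ hs ht]
    exact hf (s + t) (add_nonneg hs ht)

theorem mem_annW (hφ : IsWeight φ) {k : Y →L[ℂ] ℂ} {f : Y} :
    f ∈ (annW hφ k).I ↔ ∀ s : ℝ, 0 ≤ s → k (YW φ s f) = 0 := Iff.rfl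

theorem annW_self (hφ : IsWeight φ) {k : Y →L[ℂ] ℂ} {f : Y} (hf : f ∈ (annW hφ k).I) :
    k f = 0 := by
  have h := hf 0 le_rfl
  rwa [YW_zero hφ] at h

/-- The functional on the quotient. -/
def kqW (hφ : IsWeight φ) (k : Y →L[ℂ] ℂ) : (annW hφ k).Q →L[ℂ] ℂ :=
  (annW hφ k).lift k (fun _ hf => annW_self hφ hf)

theorem kqW_qm (hφ : IsWeight φ) (k : Y →L[ℂ] ℂ) (f : Y) :
    kqW hφ k ((annW hφ k).qm f) = k f := rfl

/-- Every functional on the weighted half-line space is represented. -/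
theorem exists_functionW (hφ : IsWeight φ) (k : Y →L[ℂ] ℂ) :
    ∃ h : ℝ → ℂ, RepW φ k h ∧ LInfPos φ h := by
  obtain ⟨h, h1, h2, h3, C, hC⟩ := Pool.Agent.H78E.exists_function Pool.Agent.H78E.H61.dual k
  refine ⟨fun t => (φ t : ℂ) * h t, ?_, ⟨⟨?_, C, ?_⟩, ?_⟩⟩
  · rw [repW_iff hφ]
    intro F
    rw [h1 F]
    congr 1
    ext1 t
    have h0 : (φ t : ℂ) ≠ 0 := by exact_mod_cast (one_le_max_zero hφ t).ne'
    field_simp
  · exact (Complex.measurable_ofReal.comp hφ.meas).aestronglyMeasurable.mul h2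
  · refine Eventually.of_forall fun t => ?_
    rw [norm_mul, Complex.norm_real, Real.norm_of_nonneg (one_le_max_zero hφ t).le, mul_comm]
    exact mul_le_mul_of_nonneg_right (hC t) (one_le_max_zero hφ t).le
  · intro t ht
    simp only
    rw [h3 t ht, mul_zero]

/-- Membership in `BPos` in terms of functionals. -/
theorem mem_BPos_iffW (hφ : IsWeight φ) {g h : ℝ → ℂ} (hg : LInfPos φ g) (hh : LInfPos φ h)
    {ℓ k : Y →L[ℂ] ℂ} (hℓ : RepW φ ℓ g) (hk : RepW φ k h) :
    h ∈ BPos φ g ↔ ∀ f ∈ (annW hφ ℓ).I, k f = 0 := by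
  rw [Pool.Agent.H78E.bipolarPos φ hφ g h hg hh]
  constructor
  · intro H F hF
    obtain ⟨f, h1, h2, h3⟩ := ofYW hφ F
    rw [hk]
    have h4 : ∫ t : ℝ, ((dv φ F : X) : ℝ → ℂ) t * h t = ∫ t : ℝ, f t * h t := by
      apply integral_congr_ae
      filter_upwards [h3] with t ht
      rw [ht]
    rw [h4]
    apply H f h1 h2
    intro s hs
    have h5 := hF s hs
    rw [repW_shift hφ hℓ hs] at h5
    rw [← h5]
    apply integral_congr_ae
    filter_upwards [h3] with t ht
    rw [ht]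
  · intro H f h1 h2 h3
    obtain ⟨F, hF⟩ := toYW hφ h1 (Eventually.of_forall h2)
    have h4 : F ∈ (annW hφ ℓ).I := by
      intro s hs
      rw [repW_shift hφ hℓ hs, ← h3 s hs]
      apply integral_congr_ae
      filter_upwards [hF] with t ht
      rw [ht]
    have h5 := H F h4
    rw [hk] at h5
    rw [← h5]
    apply integral_congr_ae
    filter_upwards [hF] with t ht
    rw [ht]

/-- The spectrum on the half-line is the hull of the annihilator. -/
theorem specPos_eqW (hφ : IsWeight φ) {g : ℝ → ℂ} (hg : LInfPos φ g)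
    {ℓ : Y →L[ℂ] ℂ} (hℓ : RepW φ ℓ g) : SpecPos φ g = (annW hφ ℓ).hull := by
  ext z
  constructor
  · rintro ⟨h1, h2⟩
    exact ⟨h1, (mem_BPos_iffW hφ hg (expPos_linfPos hφ h1) hℓ (chiW_rep h1)).mp h2⟩
  · rintro ⟨h1, h2⟩
    exact ⟨h1, (mem_BPos_iffW hφ hg (expPos_linfPos hφ h1) hℓ (chiW_rep h1)).mpr h2⟩

theorem zero_smul_fun (k : Y →L[ℂ] ℂ) : (0 : ℂ) • k = 0 := by
  ext f
  rw [smul_apply, zero_smul]
  rfl

/-- An element annihilated by the character at `w` and by no other one. -/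
def sepW (hφ : IsWeight φ) (w : ℂ) : Y := rw' φ - (1 + Complex.I * w) • (WS hφ).En 1 (rw' φ)

theorem chiW_sep (hφ : IsWeight φ) {w z : ℂ} (hz : z.im ≤ 0) :
    chiW φ z (sepW hφ w) = Complex.I * (z - w) / (1 + Complex.I * z) ^ 2 := by
  have hne := one_add_ne hz
  unfold sepW
  rw [map_sub, map_smul, chiW_En_one hφ hz, chiW_rw hφ hz, smul_eq_mul]
  field_simp
  ring

theorem sepW_mem (hφ : IsWeight φ) {w : ℂ} (hw : w.im ≤ 0) :
    sepW hφ w ∈ (annW hφ (chiW φ w)).I := by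
  intro s hs
  rw [chiW_YW hφ hw hs, chiW_sep hφ hw, sub_self, mul_zero, zero_div, mul_zero]

theorem annW_le_of (hφ : IsWeight φ) {k l : Y →L[ℂ] ℂ} (h : ∀ f ∈ (annW hφ k).I, l f = 0) :
    (annW hφ k).I ≤ (annW hφ l).I := by
  intro f hf s hs
  exact h _ ((annW hφ k).inv s hs f hf)

theorem hullW_mono {J J' : ISub φ} (h : J.I ≤ J'.I) : J'.hull ⊆ J.hull :=
  fun _ hz => ⟨hz.1, fun f hf => hz.2 f (h hf)⟩

theorem annW_zero_hull (hφ : IsWeight φ) : (annW hφ (0 : Y →L[ℂ] ℂ)).hull = ∅ := by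
  rw [Set.eq_empty_iff_forall_notMem]
  intro z hz
  exact chiW_rw_ne hφ hz.1 (hz.2 (rw' φ) (fun s _ => rfl))

theorem repW_smul_exp {l : Y →L[ℂ] ℂ} {u : ℝ → ℂ} (hl : RepW φ l u) {c z : ℂ} (hz : z.im ≤ 0)
    (h : u =ᵐ[volume] fun t => c * expPos z t) : l = c • chiW φ z := by
  ext f
  rw [hl, smul_apply, smul_eq_mul, chiW_rep hz, ← integral_const_mul]
  apply integral_congr_ae
  filter_upwards [h] with t ht
  rw [ht]
  ring

/-- The hull of the annihilator of a character. -/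
theorem hull_chiW (hφ : IsWeight φ) {z : ℂ} (hz : z.im ≤ 0) {c : ℂ} (hc : c ≠ 0) :
    (annW hφ (c • chiW φ z)).hull = {z} := by
  have hself : ∀ f, f ∈ (annW hφ (c • chiW φ z)).I ↔ chiW φ z f = 0 := by
    intro f
    constructor
    · intro hf
      have h := annW_self hφ hf
      rw [smul_apply, smul_eq_mul] at h
      exact (mul_eq_zero.mp h).resolve_left hc
    · intro hf s hs
      rw [smul_apply, smul_eq_mul, chiW_YW hφ hz hs, hf, mul_zero, mul_zero]
  apply Set.Subset.antisymm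
  · intro w hw
    by_contra hne
    have h1 := hw.2 (sepW hφ z) ((hself _).mpr (by
      rw [chiW_sep hφ hz, sub_self, mul_zero, zero_div]))
    rw [chiW_sep hφ hw.1] at h1
    have h2 : Complex.I * (w - z) / (1 + Complex.I * w) ^ 2 ≠ 0 := by
      apply div_ne_zero
      · exact mul_ne_zero Complex.I_ne_zero (sub_ne_zero.mpr hne)
      · exact pow_ne_zero _ (one_add_ne hw.1)
    exact h2 h1
  · rintro w rfl
    exact ⟨hz, fun f hf => (hself f).mp hf⟩

/-- NE: under simplicity, a functional annihilated by the annihilator of `l` with empty hull is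
zero. -/
theorem ne_of_simple (hφ : IsWeight φ) {l k : Y →L[ℂ] ℂ}
    (hsimp : ∀ k : Y →L[ℂ] ℂ, (∀ f ∈ (annW hφ l).I, k f = 0) → (∃ z, (annW hφ k).hull = {z}) →
      ∃ c z : ℂ, z.im ≤ 0 ∧ k = c • chiW φ z)
    (hne : (annW hφ l).hull.Nonempty) (hk : ∀ f ∈ (annW hφ l).I, k f = 0)
    (hemp : (annW hφ k).hull = ∅) : k = 0 := by
  have hex : ∀ z : ℂ, z.im ≤ 0 → ∃ f ∈ (annW hφ k).I, chiW φ z f ≠ 0 := by
    intro z hz
    by_contra hcon
    push Not at hcon
    have : z ∈ (annW hφ k).hull := ⟨hz, hcon⟩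
    rw [hemp] at this
    exact this
  obtain ⟨x, hx⟩ := hne
  set h : Y →L[ℂ] ℂ := chiW φ x + k with hh
  have hhull : (annW hφ h).hull = {x} := by
    apply Set.Subset.antisymm
    · intro z hz
      by_contra hzx
      obtain ⟨f2, hf2, hf2z⟩ := hex z hz.1
      have hc1 : convW hφ (sepW hφ x) f2 ∈ (annW hφ (chiW φ x)).I :=
        (annW hφ (chiW φ x)).conv_mem_left hφ (sepW_mem hφ hx.1) f2
      have hc2 : convW hφ (sepW hφ x) f2 ∈ (annW hφ k).I := (annW hφ k).conv_mem_right hφ _ hf2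
      have hc3 : convW hφ (sepW hφ x) f2 ∈ (annW hφ h).I := by
        intro s hs
        rw [hh, add_apply, hc1 s hs, hc2 s hs, add_zero]
      have h1 := hz.2 _ hc3
      rw [chiW_conv hφ hz.1, chiW_sep hφ hz.1] at h1
      have h2 : Complex.I * (z - x) / (1 + Complex.I * z) ^ 2 ≠ 0 := by
        apply div_ne_zero
        · exact mul_ne_zero Complex.I_ne_zero (sub_ne_zero.mpr hzx)
        · exact pow_ne_zero _ (one_add_ne hz.1)
      exact (mul_ne_zero h2 hf2z) h1
    · rintro z rfl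
      refine ⟨hx.1, ?_⟩
      by_contra hcon
      push Not at hcon
      obtain ⟨f3, hf3, hf3x⟩ := hcon
      obtain ⟨f2, hf2, hf2x⟩ := hex z hx.1
      have hc1 : convW hφ f3 f2 ∈ (annW hφ h).I := (annW hφ h).conv_mem_left hφ hf3 f2
      have hc2 : convW hφ f3 f2 ∈ (annW hφ k).I := (annW hφ k).conv_mem_right hφ _ hf2
      have h1 := annW_self hφ hc1
      rw [hh, add_apply, annW_self hφ hc2, add_zero, chiW_conv hφ hx.1] at h1
      exact (mul_ne_zero hf3x hf2x) h1
  obtain ⟨c, z', hz', hcz⟩ := hsimp h (by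
    intro f hf
    rw [hh, add_apply, hk f hf, hx.2 f hf, add_zero]) ⟨x, hhull⟩
  have hc0 : c ≠ 0 := by
    rintro rfl
    rw [zero_smul_fun] at hcz
    rw [hcz, annW_zero_hull] at hhull
    exact (Set.singleton_ne_empty x) hhull.symm
  have hz'x : z' = x := by
    have h1 := hull_chiW hφ hz' hc0
    rw [← hcz, hhull] at h1
    exact (Set.singleton_eq_singleton_iff.mp h1).symm
  rw [hz'x] at hcz
  have hkc : k = (c - 1) • chiW φ x := by
    ext f
    have h1 : chiW φ x f + k f = c * chiW φ x f := by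
      have h2 := congrArg (fun A : Y →L[ℂ] ℂ => A f) hcz
      exact h2
    rw [smul_apply, smul_eq_mul]
    linear_combination h1
  by_cases h1 : c - 1 = 0
  · rw [hkc, h1, zero_smul_fun]
  · exfalso
    have h2 := hull_chiW hφ hx.1 h1
    rw [← hkc, hemp] at h2
    exact (Set.singleton_ne_empty x) h2.symm

/-- The local part of the functional at an isolated point of the hull. -/
theorem local_part (hφ : IsWeight φ) {l : Y →L[ℂ] ℂ} {x0 : ℝ} {ρ : ℝ} (hρ : 0 < ρ)
    (hreal : ∀ z ∈ (annW hφ l).hull, z.im = 0)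
    {e : (annW hφ l).Q →L[ℂ] (annW hφ l).Q}
    (hunit : ∀ z : ℂ, z ≠ 1 / (1 + Complex.I * x0) → ‖z - 1 / (1 + Complex.I * x0)‖ ≤ ρ →
      IsUnit (algebraMap ℂ ((annW hφ l).Q →L[ℂ] (annW hφ l).Q) z - ((annW hφ l).S hφ).En 1))
    (hee : e * e = e)
    (heT : ∀ s : ℝ, 0 ≤ s → ∀ x, e (((annW hφ l).S hφ).T s x) = ((annW hφ l).S hφ).T s (e x))
    (heθ : ∀ θ : ((annW hφ l).Q →L[ℂ] (annW hφ l).Q) →L[ℂ] ℂ,
      θ e = (2 * (Real.pi : ℂ) * Complex.I)⁻¹ * ∮ z in C(1 / (1 + Complex.I * x0), ρ),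
          θ (Ring.inverse (algebraMap ℂ ((annW hφ l).Q →L[ℂ] (annW hφ l).Q) z -
            ((annW hφ l).S hφ).En 1)))
    (hx0 : (x0 : ℂ) ∈ (annW hφ l).hull) :
    (annW hφ ((kqW hφ l).comp (e.comp (annW hφ l).qm))).hull = {(x0 : ℂ)} := by
  set l0 : Y →L[ℂ] ℂ := (kqW hφ l).comp (e.comp (annW hφ l).qm) with hl0
  have hl0_apply : ∀ f, l0 f = kqW hφ l (e ((annW hφ l).qm f)) := fun f => rfl
  have hann0 : ∀ f : Y, f ∈ (annW hφ l0).I ↔ e ((annW hφ l).qm f) = 0 := by
    intro f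
    obtain ⟨w, hw⟩ := (annW hφ l).qm_surj (e ((annW hφ l).qm f))
    have h1 : ∀ s : ℝ, 0 ≤ s → l0 (YW φ s f) = l (YW φ s w) := by
      intro s hs
      rw [hl0_apply, (annW hφ l).qm_T hφ hs, heT s hs, ← hw, ← (annW hφ l).qm_T hφ hs]
      rfl
    constructor
    · intro hf
      have h2 : w ∈ (annW hφ l).I := by
        intro s hs
        rw [← h1 s hs]
        exact hf s hs
      rw [← hw]
      exact (annW hφ l).qm_eq_zero.mpr h2
    · intro hf s hs
      rw [hl0_apply, (annW hφ l).qm_T hφ hs, heT s hs, hf, map_zero, map_zero]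
  have hJ0 : (annW hφ l).I ≤ (annW hφ l0).I := by
    intro f hf
    rw [hann0, (annW hφ l).qm_eq_zero.mpr hf, map_zero]
  apply Set.Subset.antisymm
  · intro z hz
    have hzJ : z ∈ (annW hφ l).hull := hullW_mono hJ0 hz
    have hzr : z = ((z.re : ℝ) : ℂ) := by
      apply Complex.ext <;> simp [hreal z hzJ]
    by_contra hzx
    have hne3 : z.re ≠ x0 := by
      intro h
      apply hzx
      rw [hzr, h]
      rfl
    have hzJ' : ((z.re : ℝ) : ℂ) ∈ (annW hφ l).hull := by rw [← hzr]; exact hzJ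
    obtain ⟨u, hu⟩ := (annW hφ l).qm_surj ((annW hφ l).qm (rw' φ) - e ((annW hφ l).qm (rw' φ)))
    have h1 : u ∈ (annW hφ l0).I := by
      rw [hann0, hu, map_sub]
      have h2 := congrArg (fun A : (annW hφ l).Q →L[ℂ] (annW hφ l).Q => A ((annW hφ l).qm (rw' φ))) hee
      have h3 : e (e ((annW hφ l).qm (rw' φ))) = e ((annW hφ l).qm (rw' φ)) := h2
      rw [h3, sub_self]
    have h4 := hz.2 u h1
    have h5 : (annW hφ l).ch hzJ' ((annW hφ l).qm u) = 0 := by
      rw [(annW hφ l).ch_qm, ← hzr]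
      exact h4
    rw [hu, map_sub, (annW hφ l).ch_idempotent hφ hρ hunit heθ hzJ' ((annW hφ l).qm (rw' φ)), if_neg hne3, sub_zero,
      (annW hφ l).ch_qm] at h5
    exact chiW_rw_ne hφ (by simp) h5
  · rintro z rfl
    refine ⟨by simp, fun f hf => ?_⟩
    rw [hann0] at hf
    have h1 := (annW hφ l).ch_idempotent hφ hρ hunit heθ hx0 ((annW hφ l).qm f)
    rw [if_pos rfl, hf, map_zero] at h1
    exact h1.symm

/-- SYN for functionals. -/
theorem syn_functional (hφ : IsWeight φ) {l : Y →L[ℂ] ℂ}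
    (hsimp : ∀ k : Y →L[ℂ] ℂ, (∀ f ∈ (annW hφ l).I, k f = 0) → (∃ z, (annW hφ k).hull = {z}) →
      ∃ c z : ℂ, z.im ≤ 0 ∧ k = c • chiW φ z)
    (hne : (annW hφ l).hull.Nonempty) (hreal : ∀ z ∈ (annW hφ l).hull, z.im = 0)
    (hiso : ∀ x0 : ℝ, (x0 : ℂ) ∈ (annW hφ l).hull → ∃ δ : ℝ, 0 < δ ∧
      ∀ x : ℝ, (x : ℂ) ∈ (annW hφ l).hull → |x - x0| < δ → x = x0)
    {F : Y} (hF : ∀ z ∈ (annW hφ l).hull, chiW φ z F = 0) : F ∈ (annW hφ l).I := by
  set J := annW hφ l with hJ
  -- the functional `G ↦ l (F * G)`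
  set A : J.Q →L[ℂ] J.Q := (J.S hφ).pi ((dv φ F : X) : ℝ → ℂ) with hA
  set k : Y →L[ℂ] ℂ := ((kqW hφ l).comp A).comp J.qm with hk
  have hkG : ∀ G, k G = kqW hφ l (A (J.qm G)) := fun G => rfl
  have hAT : ∀ s : ℝ, 0 ≤ s → ∀ x, (J.S hφ).T s (A x) = A ((J.S hφ).T s x) := by
    intro s hs x
    rw [hA]
    apply (J.S hφ).pi_commute (J.S hφ) ((J.S hφ).T s)
    intro t ht y
    rw [← (J.S hφ).add s t hs ht, ← (J.S hφ).add t s ht hs, add_comm]
  have hk0 : ∀ f ∈ J.I, k f = 0 := by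
    intro f hf
    rw [hkG, J.qm_eq_zero.mpr hf, map_zero, map_zero]
  have hle : J.I ≤ (annW hφ k).I := annW_le_of hφ hk0
  have hkemp : (annW hφ k).hull = ∅ := by
    rw [Set.eq_empty_iff_forall_notMem]
    intro z hz
    have hzJ : z ∈ J.hull := hullW_mono hle hz
    have hzr : z = ((z.re : ℝ) : ℂ) := by
      apply Complex.ext <;> simp [hreal z hzJ]
    set x0 : ℝ := z.re with hx0
    have hx0J : (x0 : ℂ) ∈ J.hull := by rw [← hzr]; exact hzJ
    obtain ⟨δ, hδ, hi⟩ := hiso x0 hx0J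
    obtain ⟨ρ, e, hρ, hunit, hee, heT, heθ⟩ := J.exists_idempotent hφ hδ hreal hi
    have hhull := local_part hφ hρ hreal hunit hee heT heθ hx0J
    obtain ⟨c, z', hz', hcz⟩ := hsimp ((kqW hφ l).comp (e.comp J.qm)) (by
      intro f hf
      change kqW hφ l (e (J.qm f)) = 0
      rw [J.qm_eq_zero.mpr hf, map_zero, map_zero]) ⟨_, hhull⟩
    have hc0 : c ≠ 0 := by
      rintro rfl
      rw [zero_smul_fun] at hcz
      rw [hcz, annW_zero_hull] at hhull
      exact (Set.singleton_ne_empty _) hhull.symm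
    have hz'x : z' = (x0 : ℂ) := by
      have h1 := hull_chiW hφ hz' hc0
      rw [← hcz, hhull] at h1
      exact (Set.singleton_eq_singleton_iff.mp h1).symm
    rw [hz'x] at hcz
    -- the action of `A` on the local part
    have heA : ∀ x, A (e x) = e (A x) := by
      intro x
      rw [hA]
      symm
      exact (J.S hφ).pi_commute (J.S hφ) e heT _ x
    have hloc : ∀ G : Y, kqW hφ l (e (A (J.qm G))) = 0 := by
      intro G
      have h1 : A (J.qm G) = J.qm (convW hφ F G) := by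
        rw [hA, ← J.qm_pi]
        rfl
      have h2 : kqW hφ l (e (J.qm (convW hφ F G))) = (c • chiW φ (x0 : ℂ)) (convW hφ F G) := by
        rw [← hcz]
        rfl
      rw [h1, h2, smul_apply, chiW_conv hφ (by simp), hF _ hx0J, zero_mul, smul_zero]
    obtain ⟨u, hu⟩ := J.qm_surj (e (J.qm (rw' φ)))
    have hu1 : u ∈ (annW hφ k).I := by
      intro s hs
      rw [hkG, J.qm_T hφ hs, hu, ← heT s hs, ← J.qm_T hφ hs, heA]
      exact hloc _
    have hu2 := hz.2 u hu1
    have hu3 : chiW φ z u = J.ch hx0J (J.qm u) := by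
      rw [J.ch_qm, ← hzr]
    rw [hu3, hu, J.ch_idempotent hφ hρ hunit heθ hx0J, if_pos rfl, J.ch_qm] at hu2
    exact chiW_rw_ne hφ (by simp) hu2
  have hkz : k = 0 := ne_of_simple hφ hsimp hne hk0 hkemp
  -- conclusion: `l (T_s (E_1 F)) = 0` for all `s ≥ 0`, and then `l (T_s F) = 0`
  have h1 : ∀ s : ℝ, 0 ≤ s → l (YW φ s ((WS hφ).En 1 F)) = 0 := by
    intro s hs
    have h2 : (WS hφ).En 1 F = convW hφ F (rw' φ) := by
      rw [convW_comm hφ]
      unfold convW GSemi.En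
      rw [dv_rw hφ]
      have h3 := (WS hφ).pi_congr (f := fun s : ℝ => Complex.exp (-(1 * (s : ℂ))))
        (g := ((rr : X) : ℝ → ℂ)) (by
          filter_upwards [rr_coe] with t ht h0
          rw [ht]
          unfold expPos
          rw [if_pos h0.le]
          congr 1
          have := Complex.I_mul_I
          linear_combination (-(t : ℂ)) * this)
      rw [h3]
    have h4 : l (YW φ s (convW hφ F (rw' φ))) = k (YW φ s (rw' φ)) := by
      rw [hkG, J.qm_T hφ hs, ← hAT s hs]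
      have h5 : A (J.qm (rw' φ)) = J.qm (convW hφ F (rw' φ)) := by
        rw [hA, ← J.qm_pi]
        rfl
      rw [h5, ← J.qm_T hφ hs]
      rfl
    rw [h2, h4, hkz]
    rfl
  -- continuity and derivative
  have hc : Continuous fun s : ℝ => l (YW φ (max s 0) F) := l.continuous.comp (YW_continuous hφ F)
  have h5 : ∀ v : ℝ, 0 < v → l (YW φ v F) = 0 := by
    intro v hv
    have h6 := (WS hφ).hasDerivAt_T_En hφ (a := 1) (by simp) 0 F hv
    have h7 := (l.restrictScalars ℝ).hasFDerivAt.comp_hasDerivAt v h6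
    have h8 : ((l.restrictScalars ℝ) ∘ fun v : ℝ => Complex.exp (0 * (v : ℂ)) • (WS hφ).T v ((WS hφ).En 1 F)) =ᶠ[𝓝 v]
        fun _ => (0 : ℂ) := by
      filter_upwards [lt_mem_nhds hv] with r hr
      simp only [Function.comp, zero_mul, Complex.exp_zero, one_smul, WS_T]
      exact h1 r hr.le
    have h9 := (h8.hasDerivAt_iff.mp h7).unique (hasDerivAt_const v (0 : ℂ))
    simp only [zero_mul, Complex.exp_zero, one_smul, zero_add, map_sub, WS_T] at h9
    have h10 : l (YW φ v ((WS hφ).En 1 F)) - l (YW φ v F) = 0 := h9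
    rw [h1 v hv.le, zero_sub, neg_eq_zero] at h10
    exact h10
  intro s hs
  rcases eq_or_lt_of_le hs with h0 | h0
  · rw [← h0]
    have h10 : Tendsto (fun s : ℝ => l (YW φ (max s 0) F)) (𝓝[>] 0) (𝓝 (l (YW φ (max 0 0) F))) :=
      hc.continuousAt.tendsto.mono_left nhdsWithin_le_nhds
    have h11 : Tendsto (fun s : ℝ => l (YW φ (max s 0) F)) (𝓝[>] 0) (𝓝 0) := by
      refine tendsto_const_nhds.congr' ?_
      filter_upwards [self_mem_nhdsWithin] with r hr
      rw [max_eq_left (le_of_lt hr), h5 r hr]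
    have h12 := tendsto_nhds_unique h10 h11
    rwa [max_self] at h12
  · exact h5 s h0

/-- SYN: spectral synthesis for simple discrete real spectrum, every weight. -/
theorem syn (hφ : IsWeight φ) {g : ℝ → ℂ} (hg : LInfPos φ g) (hs : SimpleSpec φ g) {K : Set ℝ}
    (hK : SpecPos φ g = (fun x : ℝ => (x : ℂ)) '' K) (hne : K.Nonempty)
    (hfin : ∀ R : ℝ, (K ∩ Set.Icc (-R) R).Finite) {f : ℝ → ℂ} (hf : L1 φ f)
    (hf0 : ∀ t, t < 0 → f t = 0)
    (hfK : ∀ x ∈ K, ∫ t : ℝ, f t * Complex.exp (-(Complex.I * (t : ℂ) * (x : ℂ))) = 0)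
    {s : ℝ} (hs0 : 0 ≤ s) : ∫ t : ℝ, f t * g (t + s) = 0 := by
  obtain ⟨l, hl⟩ := exists_functionalW hφ hg
  have hspec := specPos_eqW hφ hg hl
  rw [hK] at hspec
  obtain ⟨F, hF⟩ := toYW hφ hf (Eventually.of_forall hf0)
  have hsimp : ∀ k : Y →L[ℂ] ℂ, (∀ f ∈ (annW hφ l).I, k f = 0) → (∃ z, (annW hφ k).hull = {z}) →
      ∃ c z : ℂ, z.im ≤ 0 ∧ k = c • chiW φ z := by
    intro k hk hz
    obtain ⟨u, hu, huL⟩ := exists_functionW hφ k
    have huB : u ∈ BPos φ g := (mem_BPos_iffW hφ hg huL hl hu).mpr hk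
    obtain ⟨c, z, hz1, hz2⟩ := hs u huB (by
      obtain ⟨z, hz⟩ := hz
      exact ⟨z, by rw [specPos_eqW hφ huL hu, hz]⟩)
    exact ⟨c, z, hz1, repW_smul_exp hu hz1 hz2⟩
  have hmem : F ∈ (annW hφ l).I := by
    refine syn_functional hφ hsimp ?_ ?_ ?_ ?_
    · rw [← hspec]
      exact hne.image _
    · intro z hz
      rw [← hspec] at hz
      obtain ⟨x, _, rfl⟩ := hz
      simp
    · intro x0 hx0
      -- an isolated point
      have hfin2 : ((K ∩ Set.Icc (-(|x0| + 1)) (|x0| + 1)) \ {x0}).Finite :=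
        (hfin (|x0| + 1)).subset Set.sdiff_subset
      have hcl : IsClosed ((K ∩ Set.Icc (-(|x0| + 1)) (|x0| + 1)) \ {x0}) := hfin2.isClosed
      have hnot : x0 ∉ ((K ∩ Set.Icc (-(|x0| + 1)) (|x0| + 1)) \ {x0}) := fun h => h.2 rfl
      obtain ⟨δ, hδ, hball⟩ := Metric.isOpen_iff.mp hcl.isOpen_compl x0 hnot
      refine ⟨min δ 1, lt_min hδ zero_lt_one, fun x hx hxd => ?_⟩
      by_contra hxx
      rw [← hspec] at hx
      obtain ⟨y, hy, hyx⟩ := hx
      have hyx' : y = x := Complex.ofReal_injective hyx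
      rw [hyx'] at hy
      have h1 : x ∈ Metric.ball x0 δ := by
        rw [Metric.mem_ball, Real.dist_eq]
        exact hxd.trans_le (min_le_left _ _)
      refine hball h1 ⟨⟨hy, ?_⟩, hxx⟩
      have h2 : |x - x0| < 1 := hxd.trans_le (min_le_right _ _)
      have h3 := abs_lt.mp h2
      constructor
      · linarith [neg_abs_le x0]
      · linarith [le_abs_self x0]
    · intro z hz
      rw [← hspec] at hz
      obtain ⟨x, hx, rfl⟩ := hz
      simp only
      rw [chiW_rep (by simp), ← hfK x hx]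
      apply integral_congr_ae
      filter_upwards [hF] with t ht
      rw [ht]
      unfold expPos
      by_cases h0 : 0 ≤ t
      · rw [if_pos h0]
      · rw [hf0 t (not_le.mp h0), zero_mul, zero_mul]
  have h1 := hmem s hs0
  rw [repW_shift hφ hl hs0] at h1
  rw [← h1]
  apply integral_congr_ae
  filter_upwards [hF] with t ht
  rw [ht]

end

end Pool.Agent.WKS
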